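import Pool.Agent.Q79.SM.Bas

/-!
# Project SM of helper35: job SM-N (existence of a point by counting)
-/

set_option autoImplicit false

namespace Pool.Agent.Q79.SM

open Finset Function MvPolynomial
open Pool.Agent.Q35.MM (bx dg S_LW)
open Pool.Agent.Q35.SM

theorem dg_pos (K : Type) [Field K] [NumberField K] : 0 < dg K := Module.finrank_pos

open Classical in
/-- a good vector in a subspace -/
theorem pick (hC : S_C) (hLW : S_LW) {K : Type} [Field K] [NumberField K] {ι : Type} [Fintype ι]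
    [DecidableEq ι] {n : ι → ℕ} {r : ℕ} {i : ι} (hr : 1 ≤ r) (hr2 : r ≤ n i + 1)
    (T : Finset (Finset ι)) (H : Finset ι → Finset (Pol K n)) (hH : ∀ I ∈ T, ∀ g ∈ H I, MH g)
    (x : Vs K n) (hx : ∀ I ∈ T, Cut K r i (H I) x) (V : Submodule K (Fin (n i + 1) → K))
    (hV : n i + 1 - r < Module.finrank K V) :
    ∃ y ∈ V, ∀ I ∈ T, Opn K (H I) (update x i y) := by
  have h1 : ∀ I : Finset ι, ∃ C : ℝ, 0 ≤ C ∧ (I ∈ T → ∀ ρ : ℕ, 1 ≤ ρ →
      (((bx K (n i + 1) ρ).filter fun y => ¬ Opn K (H I) (update x i y)).card : ℝ) ≤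
        C * (ρ : ℝ) ^ (dg K * (n i + 1 - r))) := by
    intro I
    by_cases hI : I ∈ T
    · obtain ⟨C, hC0, hC1⟩ := hC K ι n r i (H I) hr hr2 (hH I hI)
      exact ⟨C, hC0, fun _ ρ hρ => hC1 x (hx I hI) ρ hρ⟩
    · exact ⟨0, le_rfl, fun h => absurd h hI⟩
  choose C hC0 hC1 using h1
  obtain ⟨c, hc, B0, hB⟩ := hLW K (n i + 1) V
  obtain ⟨ρ, hρ⟩ := exists_nat_gt (max ((∑ I ∈ T, C I) / c) (max B0 1 : ℝ))
  have hρ1 : (∑ I ∈ T, C I) / c < ρ := (le_max_left _ _).trans_lt hρ
  have hρ2 : (B0 : ℝ) < ρ := ((le_max_left _ _).trans (le_max_right _ _)).trans_lt hρ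
  have hρ3 : (1 : ℝ) < ρ := ((le_max_right _ _).trans (le_max_right _ _)).trans_lt hρ
  have hρ2' : B0 ≤ ρ := by exact_mod_cast hρ2.le
  have hρ3' : 1 ≤ ρ := by exact_mod_cast hρ3.le
  have h2 := hB ρ hρ2'
  by_contra hcon
  push Not at hcon
  have h3 : (bx K (n i + 1) ρ).filter (· ∈ V) ⊆
      T.biUnion fun I => (bx K (n i + 1) ρ).filter fun y => ¬ Opn K (H I) (update x i y) := by
    intro y hy
    rw [mem_filter] at hy
    obtain ⟨I, hI, hI2⟩ := hcon y hy.2
    rw [mem_biUnion]
    exact ⟨I, hI, mem_filter.2 ⟨hy.1, hI2⟩⟩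
  have h4 : (((bx K (n i + 1) ρ).filter (· ∈ V)).card : ℝ) ≤
      (∑ I ∈ T, C I) * (ρ : ℝ) ^ (dg K * (n i + 1 - r)) := by
    have h5 : (((bx K (n i + 1) ρ).filter (· ∈ V)).card : ℝ) ≤
        ∑ I ∈ T, (((bx K (n i + 1) ρ).filter fun y => ¬ Opn K (H I) (update x i y)).card : ℝ) := by
      exact_mod_cast (card_le_card h3).trans card_biUnion_le
    refine h5.trans ?_
    rw [sum_mul]
    exact sum_le_sum fun I hI => hC1 I hI ρ hρ3'
  have h6 : (ρ : ℝ) * (ρ : ℝ) ^ (dg K * (n i + 1 - r)) ≤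
      (ρ : ℝ) ^ (dg K * Module.finrank K V) := by
    rw [← pow_succ']
    refine pow_le_pow_right₀ hρ3.le ?_
    have h7 := dg_pos K
    calc dg K * (n i + 1 - r) + 1 ≤ dg K * (n i + 1 - r) + dg K := by omega
      _ = dg K * (n i + 1 - r + 1) := by ring
      _ ≤ _ := Nat.mul_le_mul_left _ hV
  have h8 : (0 : ℝ) < (ρ : ℝ) ^ (dg K * (n i + 1 - r)) := by positivity
  have h9 : (∑ I ∈ T, C I) < c * ρ := by
    rw [div_lt_iff₀ hc] at hρ1
    linarith
  have h10 : (∑ I ∈ T, C I) * (ρ : ℝ) ^ (dg K * (n i + 1 - r)) <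
      c * (ρ : ℝ) ^ (dg K * Module.finrank K V) := by
    calc (∑ I ∈ T, C I) * (ρ : ℝ) ^ (dg K * (n i + 1 - r))
        < c * ρ * (ρ : ℝ) ^ (dg K * (n i + 1 - r)) := mul_lt_mul_of_pos_right h9 h8
      _ = c * (ρ * (ρ : ℝ) ^ (dg K * (n i + 1 - r))) := by ring
      _ ≤ _ := mul_le_mul_of_nonneg_left h6 hc.le
  linarith

theorem sn (hC : S_C) (hLW : S_LW) : S_N := by
  classical
  intro K _ _ ι _ _ n k c G hcard hk hn hT ⟨x, hx⟩
  set s := Fintype.card ι with hs
  have hks : k < k * s := by nlinarith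
  have hr1 : 1 ≤ k * s := by omega
  -- the claim
  have claim : ∀ J : Finset ι, J ≠ univ → ∃ P : Vs K n, ∀ I ⊆ J, Opn K (G I) P := by
    intro J
    induction J using Finset.induction_on with
    | empty =>
      intro _
      refine ⟨x, fun I hI => ?_⟩
      rw [subset_empty.1 hI]
      exact hx
    | insert i J hiJ ih =>
      intro hne
      have hJ : J ≠ univ := by
        rintro rfl
        exact hiJ (mem_univ i)
      obtain ⟨P, hP⟩ := ih hJ
      have hcJ : J.card + 2 ≤ s := by
        have h1 : (insert i J).card < s := by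
          rw [hs, ← card_univ]
          exact card_lt_card (ssubset_univ_iff.2 hne)
        rw [card_insert_of_notMem hiJ] at h1
        omega
      obtain ⟨y, -, hy⟩ := pick hC hLW (i := i) hr1 (hn i) J.powerset (fun I => G (insert i I))
        (fun I _ => hT.hom _) P (fun I hI => by
          rw [mem_powerset] at hI
          have h2 : I.card + 2 ≤ Fintype.card ι := by
            have := card_le_card hI
            omega
          exact (hT.step I h2 K P).1 (hP I hI) i fun h => hiJ (hI h)) ⊤ (by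
          rw [finrank_top, Module.finrank_fin_fun]
          have := hn i
          omega)
      refine ⟨update P i y, fun I hI => ?_⟩
      by_cases hiI : i ∈ I
      · have h3 := hy (I.erase i) (by
          rw [mem_powerset]
          exact subset_insert_iff.1 hI)
        rw [insert_erase hiI] at h3
        exact h3
      · rw [opn_update (hT.dep I) hiI]
        exact hP I ((subset_insert_iff_of_notMem hiI).1 hI)
  obtain ⟨j⟩ : Nonempty ι := by
    rw [← Fintype.card_pos_iff]
    omega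
  have hj : univ.erase j ≠ (univ : Finset ι) := by
    intro h
    have := mem_univ j
    rw [← h] at this
    exact notMem_erase _ _ this
  obtain ⟨P, hP⟩ := claim (univ.erase j) hj
  have hfr := finrank_VV c P j ((hT.base j K P).1 (hP _ subset_rfl))
  obtain ⟨y, hyV, hy⟩ := pick hC hLW (i := j) hr1 (hn j) (univ.erase j).ssubsets
    (fun I => G (insert j I)) (fun I _ => hT.hom _) P (fun I hI => by
      rw [mem_ssubsets] at hI
      have h2 : I.card + 2 ≤ Fintype.card ι := by
        have h3 := card_lt_card hI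
        rw [card_erase_of_mem (mem_univ j), card_univ] at h3
        omega
      exact (hT.step I h2 K P).1 (hP I hI.1) j fun h => notMem_erase _ _ (hI.1 h)) (VV c P j) (by
      have := hn j
      omega)
  rw [mem_VV] at hyV
  refine ⟨update P j y, hyV, fun I hI => ?_⟩
  by_cases hjI : j ∈ I
  · have h3 := hy (I.erase j) (by
      rw [mem_ssubsets]
      refine lt_of_le_of_ne (erase_subset_erase _ (subset_univ _)) ?_
      intro h
      apply hI
      rw [← insert_erase hjI, h, insert_erase (mem_univ j)])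
    rw [insert_erase hjI] at h3
    exact h3
  · rw [opn_update (hT.dep I) hjI]
    exact hP I fun l hl => mem_erase.2 ⟨fun h => hjI (h ▸ hl), mem_univ l⟩

end Pool.Agent.Q79.SM
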