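import Pool.Agent.Q35.SM.Stm
import Pool.Agent.Q92.MM.Fs

/-!
# Project SM of helper35: common lemmas for the jobs SM-N and SM-G
-/

set_option autoImplicit false

namespace Pool.Agent.Q79.SM

open Finset Function MvPolynomial
open Pool.Agent.Q35.MM (bx dg)
open Pool.Agent.Q35.SM

section

variable {K : Type} [Field K] {ι : Type} [Fintype ι] [DecidableEq ι] {n : ι → ℕ}

/-- the value of the form as a function of the `i`-th vector -/
theorem ev_update (c : Cof K n) (x : Vs K n) (i : ι) (y : Fin (n i + 1) → K) :
    ev K c (update x i y) = ∑ a, (c a * ∏ l ∈ univ.erase i, x l (a l)) * y (a i) := by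
  unfold ev
  refine sum_congr rfl fun a _ => ?_
  rw [← mul_prod_erase univ _ (mem_univ i), update_self, Algebra.algebraMap_self, RingHom.id_apply]
  have h : ∏ l ∈ univ.erase i, update x i y l (a l) = ∏ l ∈ univ.erase i, x l (a l) :=
    prod_congr rfl fun l hl => by rw [update_of_ne (ne_of_mem_erase hl)]
  rw [h]
  ring

/-- the linear form in the `i`-th vector -/
def lf (c : Cof K n) (x : Vs K n) (i : ι) : (Fin (n i + 1) → K) →ₗ[K] K where
  toFun y := ev K c (update x i y)
  map_add' y z := by
    rw [ev_update, ev_update, ev_update, ← sum_add_distrib]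
    refine sum_congr rfl fun a _ => ?_
    rw [Pi.add_apply, mul_add]
  map_smul' r y := by
    rw [ev_update, ev_update, RingHom.id_apply, smul_eq_mul, mul_sum]
    refine sum_congr rfl fun a _ => ?_
    rw [Pi.smul_apply, smul_eq_mul]
    ring

theorem lf_apply (c : Cof K n) (x : Vs K n) (i : ι) (y : Fin (n i + 1) → K) :
    lf c x i y = ev K c (update x i y) := rfl

theorem lf_update (c : Cof K n) (x : Vs K n) (i : ι) (z : Fin (n i + 1) → K) :
    lf c (update x i z) i = lf c x i := by
  apply LinearMap.ext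
  intro y
  rw [lf_apply, lf_apply, update_idem]

/-- all forms -/
def lfs {k : ℕ} (c : Fin k → Cof K n) (x : Vs K n) (i : ι) :
    (Fin (n i + 1) → K) →ₗ[K] (Fin k → K) := LinearMap.pi fun t => lf (c t) x i

/-- the zeros of the system of the linear forms in the `i`-th vector -/
def VV {k : ℕ} (c : Fin k → Cof K n) (x : Vs K n) (i : ι) : Submodule K (Fin (n i + 1) → K) :=
  LinearMap.ker (lfs c x i)

theorem mem_VV {k : ℕ} (c : Fin k → Cof K n) (x : Vs K n) (i : ι) (y : Fin (n i + 1) → K) :
    y ∈ VV c x i ↔ ∀ t, ev K (c t) (update x i y) = 0 := by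
  unfold VV lfs
  rw [LinearMap.mem_ker]
  constructor
  · intro h t
    have := congrFun h t
    exact this
  · intro h
    funext t
    exact h t

theorem VV_update {k : ℕ} (c : Fin k → Cof K n) (x : Vs K n) (i : ι) (z : Fin (n i + 1) → K) :
    VV c (update x i z) i = VV c x i := by
  unfold VV lfs
  simp only [lf_update]

theorem finrank_VV {k : ℕ} (c : Fin k → Cof K n) (x : Vs K n) (i : ι)
    (h : LinearIndependent K fun (t : Fin k) (a : Fin (n i + 1)) =>
        ev K (c t) (update x i (Pi.single a 1))) :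
    k + Module.finrank K (VV c x i) = n i + 1 := by
  set M : Matrix (Fin k) (Fin (n i + 1)) K := Matrix.of fun t a =>
    ev K (c t) (update x i (Pi.single a 1)) with hM
  have h1 : lfs c x i = M.mulVecLin := by
    refine LinearMap.pi_ext' fun a => ?_
    refine LinearMap.ext_ring ?_
    funext t
    rw [LinearMap.comp_apply, LinearMap.comp_apply]
    change ev K (c t) (update x i (Pi.single a 1)) = (M.mulVec (Pi.single a 1)) t
    rw [Matrix.mulVec_single_one]
    rfl
  have h2 : M.rank = k := by
    have h3 := LinearIndependent.rank_matrix (M := M) h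
    rw [h3, Fintype.card_fin]
  have h4 := LinearMap.finrank_range_add_finrank_ker M.mulVecLin
  unfold Matrix.rank at h2
  rw [h2, Module.finrank_fin_fun] at h4
  unfold VV
  rw [h1]
  exact h4

/-- the open condition only depends on the vectors with index in `I` -/
theorem opn_congr {G : Finset (Pol K n)} {I : Finset ι} (hG : ∀ g ∈ G, ∀ v ∈ g.vars, v.1 ∈ I)
    {x x' : Vs K n} (h : ∀ l ∈ I, x l = x' l) : Opn K G x ↔ Opn K G x' := by
  have key : ∀ g ∈ G, pv K g x = pv K g x' := by
    intro g hg
    unfold pv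
    refine MvPolynomial.eval₂Hom_congr' rfl ?_ rfl
    intro v hv _
    rw [h v.1 (hG g hg v hv)]
  unfold Opn
  constructor
  · rintro ⟨g, hg, h0⟩
    exact ⟨g, hg, by rw [← key g hg]; exact h0⟩
  · rintro ⟨g, hg, h0⟩
    exact ⟨g, hg, by rw [key g hg]; exact h0⟩

theorem opn_update {G : Finset (Pol K n)} {I : Finset ι} (hG : ∀ g ∈ G, ∀ v ∈ g.vars, v.1 ∈ I)
    {x : Vs K n} {i : ι} (hi : i ∉ I) (y : Fin (n i + 1) → K) :
    Opn K G (update x i y) ↔ Opn K G x := by
  refine opn_congr hG fun l hl => ?_
  rw [update_of_ne]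
  rintro rfl
  exact hi hl

end

end Pool.Agent.Q79.SM
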