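import Pool.Agent.Q79.SM.Bnd

/-!
# Project SM of helper72 (MP_0aacdf_an): job AREAC (linear growth of the area)
-/

set_option autoImplicit false

namespace Pool.Agent.Q79.SM

open Set Filter Topology MeasureTheory Complex
open Pool.Agent.Q72.SM

variable {E : Type} [NormedAddCommGroup E] [NormedSpace ℂ E]

theorem form_bound [FiniteDimensional ℂ E] {X : CMfd E} (η : Form X) :
    ∃ M : ℝ, 0 ≤ M ∧ ∀ i u, ‖u‖ ≤ 1 → ‖η.1 i u‖ ≤ M := by
  have : ProperSpace E := FiniteDimensional.proper ℂ E
  have : Finite X.ι := X.finite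
  have := Fintype.ofFinite X.ι
  have h1 : ∀ i, ∃ M : ℝ, ∀ u : E, ‖u‖ ≤ 1 → ‖η.1 i u‖ ≤ M := by
    intro i
    have h2 : Continuous fun u => ‖η.1 i u‖ :=
      (continuous_norm (E := E →L[ℝ] E →L[ℝ] ℝ)).comp (η.2.1 i)
    obtain ⟨M, hM⟩ := (isCompact_closedBall (0 : E) 1).exists_bound_of_continuousOn
      h2.continuousOn
    refine ⟨M, fun u hu => ?_⟩
    have h3 := hM u (mem_closedBall_zero_iff.2 hu)
    rw [Real.norm_eq_abs] at h3
    exact (le_abs_self _).trans h3
  choose M hM using h1
  refine ⟨∑ i, |M i|, Finset.sum_nonneg fun i _ => abs_nonneg _, fun i u hu => ?_⟩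
  calc ‖η.1 i u‖ ≤ M i := hM i u hu
    _ ≤ |M i| := le_abs_self _
    _ ≤ ∑ i, |M i| := Finset.single_le_sum (f := fun i => |M i|) (fun i _ => abs_nonneg _)
        (Finset.mem_univ i)

theorem nsq {A B : Type} [NormedAddCommGroup A] [NormedAddCommGroup B] (p : A × B) :
    ‖p‖ ^ 2 ≤ ‖p.1‖ ^ 2 + ‖p.2‖ ^ 2 := by
  rw [Prod.norm_def]
  rcases le_total ‖p.1‖ ‖p.2‖ with h | h
  · rw [max_eq_right h]
    have := sq_nonneg ‖p.1‖
    linarith
  · rw [max_eq_left h]
    have := sq_nonneg ‖p.2‖
    linarith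

theorem der_exp' (p q z : ℂ) : HasDerivAt (fun z => p * exp (q * z)) (p * q * exp (q * z)) z := by
  have h1 : HasDerivAt (fun z : ℂ => q * z) q z := by
    simpa using (hasDerivAt_id z).const_mul q
  refine ((h1.cexp).const_mul p).congr_deriv ?_
  ring

theorem areac (_ : S_C1) (hA : S_AREA1) : S_AREAC := by
  intro X g c hc hex η
  have : Finite X.ι := X.finite
  have := Fintype.ofFinite X.ι
  obtain ⟨M, hM0, hM⟩ := form_bound η
  choose α γ hγ hcz using hex
  choose K hK0 hK using fun (i : X.ι) (j : Fin 4) => hA (α i j) (γ i j) (hγ i j)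
  refine ⟨M * ∑ i, ∑ j, K i j, mul_nonneg hM0 (Finset.sum_nonneg fun i _ =>
    Finset.sum_nonneg fun j _ => hK0 i j), fun t ht => ?_⟩
  obtain ⟨F, hF⟩ : ∃ F : X.ι → Fin 4 → ℂ → ℝ, F = fun i j z =>
    ‖α i j * γ i j * exp (γ i j * z)‖ ^ 2 := ⟨_, rfl⟩
  obtain ⟨S, hS⟩ : ∃ S : X.ι → Fin 4 → Set ℂ, S = fun i j =>
    {z | ‖α i j * exp (γ i j * z)‖ ≤ 1} := ⟨_, rfl⟩
  have hFc : ∀ i j, Continuous (F i j) := by
    intro i j
    rw [hF]
    fun_prop
  have hSm : ∀ i j, MeasurableSet (S i j) := by
    intro i j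
    rw [hS]
    have h1 : Continuous fun z : ℂ => ‖α i j * exp (γ i j * z)‖ := by fun_prop
    exact (isClosed_le h1 continuous_const).measurableSet
  -- the pointwise bound
  have hpt : ∀ z, |pull η g z| ≤ M * ∑ i, ∑ j, (S i j).indicator (F i j) z := by
    intro z
    obtain ⟨i, u, hu, hx⟩ := X.cover (g z)
    have hu' : u = c i z := X.inj i (hx.trans (hc i z).symm)
    have hd : HasDerivAt (c i) (((α i 0 * γ i 0 * exp (γ i 0 * z), α i 1 * γ i 1 * exp (γ i 1 * z)),
        α i 2 * γ i 2 * exp (γ i 2 * z)), α i 3 * γ i 3 * exp (γ i 3 * z)) z := by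
      have e : c i = fun w => (((α i 0 * exp (γ i 0 * w), α i 1 * exp (γ i 1 * w)),
        α i 2 * exp (γ i 2 * w)), α i 3 * exp (γ i 3 * w)) := funext fun w => hcz i w
      rw [e]
      exact (((der_exp' _ _ z).prodMk (der_exp' _ _ z)).prodMk (der_exp' _ _ z)).prodMk
        (der_exp' _ _ z)
    rw [pull_eq X g i (c i) z _ hd (Eventually.of_forall fun w => (hc i w).symm) η]
    refine (norm_bound η i (c i z) _).trans ?_
    rw [← hu']
    have hcu : ‖c i z‖ ≤ 1 := by rw [← hu']; exact hu
    rw [hcz i z] at hcu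
    have b3 := (norm_snd_le _).trans hcu
    have b' := (norm_fst_le _).trans hcu
    have b2 := (norm_snd_le _).trans b'
    have b'' := (norm_fst_le _).trans b'
    have b1 := (norm_snd_le _).trans b''
    have b0 := (norm_fst_le _).trans b''
    have i0 : (S i 0).indicator (F i 0) z = F i 0 z := by
      rw [indicator_of_mem]
      rw [hS]
      exact b0
    have i1 : (S i 1).indicator (F i 1) z = F i 1 z := by
      rw [indicator_of_mem]
      rw [hS]
      exact b1
    have i2 : (S i 2).indicator (F i 2) z = F i 2 z := by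
      rw [indicator_of_mem]
      rw [hS]
      exact b2
    have i3 : (S i 3).indicator (F i 3) z = F i 3 z := by
      rw [indicator_of_mem]
      rw [hS]
      exact b3
    have hsum : ‖((((α i 0 * γ i 0 * exp (γ i 0 * z), α i 1 * γ i 1 * exp (γ i 1 * z)),
        α i 2 * γ i 2 * exp (γ i 2 * z)), α i 3 * γ i 3 * exp (γ i 3 * z)) : E4)‖ ^ 2 ≤
        ∑ j, (S i j).indicator (F i j) z := by
      rw [Fin.sum_univ_four, i0, i1, i2, i3, hF]
      refine (nsq _).trans (add_le_add ?_ le_rfl)
      refine (nsq _).trans (add_le_add ?_ le_rfl)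
      exact nsq _
    have hnn : ∀ i', 0 ≤ ∑ j, (S i' j).indicator (F i' j) z := fun i' =>
      Finset.sum_nonneg fun j _ => indicator_nonneg (fun z _ => by rw [hF]; positivity) z
    calc _ ≤ M * ∑ j, (S i j).indicator (F i j) z := by
          refine mul_le_mul (hM i u hu) hsum (by positivity) hM0
      _ ≤ _ := by
          refine mul_le_mul_of_nonneg_left ?_ hM0
          exact Finset.single_le_sum (f := fun i' => ∑ j, (S i' j).indicator (F i' j) z)
            (fun i' _ => hnn i') (Finset.mem_univ i)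
  have hint : ∀ i j, IntegrableOn (F i j) (Metric.ball (0 : ℂ) t) := fun i j =>
    ((hFc i j).continuousOn.integrableOn_compact (isCompact_closedBall (0 : ℂ) t)).mono_set
      Metric.ball_subset_closedBall
  have hint' : ∀ i j, Integrable ((S i j).indicator (F i j))
      (volume.restrict (Metric.ball (0 : ℂ) t)) := fun i j => (hint i j).indicator (hSm i j)
  calc ∫ z in Metric.ball (0 : ℂ) t, |pull η g z|
      ≤ ∫ z in Metric.ball (0 : ℂ) t, M * ∑ i, ∑ j, (S i j).indicator (F i j) z := by
        refine integral_mono_of_nonneg (Eventually.of_forall fun z => abs_nonneg _) ?_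
          (Eventually.of_forall hpt)
        exact (integrable_finsetSum _ fun i _ => integrable_finsetSum _ fun j _ =>
          hint' i j).const_mul M
    _ = M * ∑ i, ∑ j, ∫ z in Metric.ball (0 : ℂ) t, (S i j).indicator (F i j) z := by
        rw [integral_const_mul, integral_finsetSum _ fun i _ => integrable_finsetSum _
          fun j _ => hint' i j]
        congr 1
        refine Finset.sum_congr rfl fun i _ => ?_
        rw [integral_finsetSum _ fun j _ => hint' i j]
    _ ≤ M * ∑ i, ∑ j, K i j * t := by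
        refine mul_le_mul_of_nonneg_left ?_ hM0
        refine Finset.sum_le_sum fun i _ => Finset.sum_le_sum fun j _ => ?_
        rw [setIntegral_indicator (hSm i j), hF, hS]
        exact hK i j t ht
    _ = _ := by
        simp only [← Finset.sum_mul]
        ring

end Pool.Agent.Q79.SM
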