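import Pool.Agent.Q79.SM.B2

/-!
# Project SM of helper72 (MP_0aacdf_an): job B1 (the product of two spheres)
-/

set_option autoImplicit false

namespace Pool.Agent.Q79.SM

open Set Filter Topology
open Pool.Agent.Q72.SM

theorem ψ_false (u : ℂ) : ψ false u = ((u : ℂ) : OnePoint ℂ) := rfl

theorem ψ_true (u : ℂ) : ψ true u =
    if u = 0 then OnePoint.infty else ((u⁻¹ : ℂ) : OnePoint ℂ) := rfl

theorem ψ_inj (a : Bool) : Function.Injective (ψ a) := by
  intro u v h
  cases a
  · rw [ψ_false, ψ_false] at h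
    exact OnePoint.coe_injective h
  · rw [ψ_true, ψ_true] at h
    by_cases hu : u = 0
    · by_cases hv : v = 0
      · rw [hu, hv]
      · rw [if_pos hu, if_neg hv] at h
        exact absurd h.symm (OnePoint.coe_ne_infty _)
    · by_cases hv : v = 0
      · rw [if_neg hu, if_pos hv] at h
        exact absurd h (OnePoint.coe_ne_infty _)
      · rw [if_neg hu, if_neg hv] at h
        exact inv_injective (OnePoint.coe_injective h)

theorem ψ_cover (x : OnePoint ℂ) : ∃ (a : Bool) (u : ℂ), ‖u‖ ≤ 1 ∧ ψ a u = x := by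
  induction x using OnePoint.rec with
  | infty => exact ⟨true, 0, by rw [norm_zero]; exact zero_le_one, by rw [ψ_true, if_pos rfl]⟩
  | coe z =>
    by_cases h : ‖z‖ ≤ 1
    · exact ⟨false, z, h, rfl⟩
    · push Not at h
      have hz : z ≠ 0 := by
        rintro rfl
        rw [norm_zero] at h
        linarith
      refine ⟨true, z⁻¹, ?_, ?_⟩
      · rw [norm_inv]
        exact inv_le_one_of_one_le₀ h.le
      · rw [ψ_true, if_neg (inv_ne_zero hz), inv_inv]

theorem ψ_tr (a b : Bool) {u : ℂ} (h : a = b ∨ u ≠ 0) : ψ b (h1 (a = b) u) = ψ a u := by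
  by_cases hab : a = b
  · subst hab
    unfold h1
    rw [if_pos rfl]
  · have hu := h.resolve_left hab
    unfold h1
    rw [if_neg hab]
    cases a
    · cases b
      · exact absurd rfl hab
      · rw [ψ_true, if_neg (inv_ne_zero hu), inv_inv, ψ_false]
    · cases b
      · rw [ψ_true, if_neg hu, ψ_false]
      · exact absurd rfl hab

theorem ψ_mem (a b : Bool) (u : ℂ) : ψ a u ∈ range (ψ b) ↔ (a = b ∨ u ≠ 0) := by
  constructor
  · rintro ⟨v, hv⟩
    by_contra h
    push Not at h
    obtain ⟨h2, h3⟩ := h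
    subst h3
    cases a
    · cases b
      · exact h2 rfl
      · rw [ψ_true, ψ_false] at hv
        by_cases hv0 : v = 0
        · rw [if_pos hv0] at hv
          exact OnePoint.infty_ne_coe _ hv
        · rw [if_neg hv0] at hv
          exact inv_ne_zero hv0 (OnePoint.coe_injective hv)
    · cases b
      · rw [ψ_true, if_pos rfl, ψ_false] at hv
        exact OnePoint.coe_ne_infty _ hv
      · exact h2 rfl
  · intro h
    exact ⟨_, ψ_tr a b h⟩

theorem ψ_cont (a : Bool) : Continuous (ψ a) := by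
  cases a
  · exact OnePoint.continuous_coe
  · have e : ψ true = Function.update (fun u : ℂ => ((u⁻¹ : ℂ) : OnePoint ℂ)) 0
        OnePoint.infty := by
      funext u
      rw [ψ_true, Function.update_apply]
    rw [e, continuous_iff_continuousAt]
    intro z
    by_cases hz : z = 0
    · subst hz
      rw [continuousAt_update_same]
      have h2 : Tendsto (fun z : ℂ => z⁻¹) (𝓝[≠] 0) (coclosedCompact ℂ) := by
        rw [coclosedCompact_eq_cocompact, ← Metric.cobounded_eq_cocompact]
        exact tendsto_inv₀_nhdsNE_zero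
      exact OnePoint.tendsto_coe_infty.comp h2
    · rw [continuousAt_update_of_ne hz]
      exact OnePoint.continuous_coe.continuousAt.comp (continuousAt_inv₀ hz)

theorem b1 : S_B1 := by
  refine ⟨fun k u v h => ?_, fun x => ?_, fun k l => ?_, fun k l u hu => ?_, fun k l => ?_,
    fun k l u hu => tr0_an k l hu, ?_⟩
  · obtain ⟨h2, h3⟩ := Prod.ext_iff.1 h
    exact Prod.ext (ψ_inj k.1 h2) (ψ_inj k.2 h3)
  · obtain ⟨a, u, hu, h2⟩ := ψ_cover x.1
    obtain ⟨b, v, hv, h3⟩ := ψ_cover x.2
    exact ⟨(a, b), (u, v), max_le hu hv, Prod.ext h2 h3⟩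
  · ext u
    show φ0 k u ∈ range (φ0 l) ↔ (k.1 = l.1 ∨ u.1 ≠ 0) ∧ (k.2 = l.2 ∨ u.2 ≠ 0)
    rw [← ψ_mem, ← ψ_mem]
    constructor
    · rintro ⟨v, hv⟩
      obtain ⟨h2, h3⟩ := Prod.ext_iff.1 hv
      exact ⟨⟨v.1, h2⟩, ⟨v.2, h3⟩⟩
    · rintro ⟨⟨v, hv⟩, ⟨v', hv'⟩⟩
      exact ⟨(v, v'), Prod.ext hv hv'⟩
  · exact Prod.ext (ψ_tr k.1 l.1 hu.1) (ψ_tr k.2 l.2 hu.2)
  · have g : ∀ p : Prop, IsOpen {u : ℂ | p ∨ u ≠ 0} := by
      intro p
      by_cases hp : p
      · simp [hp]
      · simp only [hp, false_or]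
        exact isOpen_ne
    exact ((g (k.1 = l.1)).preimage continuous_fst).inter
      ((g (k.2 = l.2)).preimage continuous_snd)
  · letI t1 : TopologicalSpace (OnePoint ℂ × OnePoint ℂ) :=
      ⨆ k, TopologicalSpace.coinduced (φ0 k) inferInstance
    have hid : Continuous[t1, instTopologicalSpaceProd] (id : OnePoint ℂ × OnePoint ℂ → _) := by
      rw [continuous_iSup_dom]
      intro k
      rw [continuous_coinduced_dom]
      exact ((ψ_cont k.1).comp continuous_fst).prodMk ((ψ_cont k.2).comp continuous_snd)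
    exact @T2Space.of_injective_continuous (OnePoint ℂ × OnePoint ℂ) (OnePoint ℂ × OnePoint ℂ) t1
      instTopologicalSpaceProd _ id Function.injective_id hid

end Pool.Agent.Q79.SM
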