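import Pool.Agent.Q72.SM.Stm2

/-!
# Project SM of helper72 (MP_0aacdf_an): job B2 (the frame of the tangent bundle)
-/

set_option autoImplicit false

namespace Pool.Agent.Q79.SM

open Set Filter Topology
open Pool.Agent.Q72.SM

/-- one coordinate of the transition map -/
noncomputable def h1 (p : Prop) [Decidable p] (x : ℂ) : ℂ := if p then x else x⁻¹

/-- its derivative -/
noncomputable def h2 (p : Prop) [Decidable p] (x : ℂ) : ℂ := if p then 1 else -(x ^ 2)⁻¹

theorem h1_deriv (p : Prop) [Decidable p] {x : ℂ} (hx : p ∨ x ≠ 0) :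
    HasDerivAt (h1 p) (h2 p x) x := by
  by_cases hp : p
  · have e1 : h1 p = fun x => x := by funext x; exact if_pos hp
    have e2 : h2 p x = 1 := if_pos hp
    rw [e1, e2]
    exact hasDerivAt_id' x
  · have e1 : h1 p = fun x => x⁻¹ := by funext x; exact if_neg hp
    have e2 : h2 p x = -(x ^ 2)⁻¹ := if_neg hp
    rw [e1, e2]
    exact hasDerivAt_inv (hx.resolve_left hp)

theorem h1_an (p : Prop) [Decidable p] {x : ℂ} (hx : p ∨ x ≠ 0) : AnalyticAt ℂ (h1 p) x := by
  by_cases hp : p
  · have e1 : h1 p = fun x => x := by funext x; exact if_pos hp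
    rw [e1]
    exact analyticAt_id
  · have e1 : h1 p = fun x => x⁻¹ := by funext x; exact if_neg hp
    rw [e1]
    exact analyticAt_id.inv (hx.resolve_left hp)

theorem h2_an (p : Prop) [Decidable p] {x : ℂ} (hx : p ∨ x ≠ 0) : AnalyticAt ℂ (h2 p) x := by
  by_cases hp : p
  · have e1 : h2 p = fun _ => 1 := by funext x; exact if_pos hp
    rw [e1]
    exact analyticAt_const
  · have e1 : h2 p = fun x => -(x ^ 2)⁻¹ := by funext x; exact if_neg hp
    rw [e1]
    exact ((analyticAt_id.pow 2).inv (pow_ne_zero 2 (hx.resolve_left hp))).neg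

theorem tr0_eq (k l : Bool × Bool) (u : ℂ × ℂ) :
    tr0 k l u = (h1 (k.1 = l.1) u.1, h1 (k.2 = l.2) u.2) := rfl

theorem tr0_an (k l : Bool × Bool) {u : ℂ × ℂ} (hu : u ∈ dom0 k l) :
    AnalyticAt ℂ (tr0 k l) u := by
  have e : tr0 k l = fun u => (h1 (k.1 = l.1) u.1, h1 (k.2 = l.2) u.2) := rfl
  rw [e]
  exact ((h1_an _ hu.1).fun_comp analyticAt_fst).prod ((h1_an _ hu.2).fun_comp analyticAt_snd)

theorem tr0_fderiv (k l : Bool × Bool) {u : ℂ × ℂ} (hu : u ∈ dom0 k l) (v : ℂ × ℂ) :
    fderiv ℂ (tr0 k l) u v = (v.1 * h2 (k.1 = l.1) u.1, v.2 * h2 (k.2 = l.2) u.2) := by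
  have d1 := (h1_deriv (k.1 = l.1) hu.1).hasFDerivAt.comp u (hasFDerivAt_fst (𝕜 := ℂ))
  have d2 := (h1_deriv (k.2 = l.2) hu.2).hasFDerivAt.comp u (hasFDerivAt_snd (𝕜 := ℂ))
  have h := (d1.prodMk d2).fderiv
  have e : fderiv ℂ (tr0 k l) u = fderiv ℂ
    (fun x => ((h1 (k.1 = l.1) ∘ Prod.fst) x, (h1 (k.2 = l.2) ∘ Prod.snd) x)) u := rfl
  rw [e, h]
  rfl

theorem b2 : S_B2 := by
  refine ⟨fun k a => ?_, fun k u α β h => ?_, fun k l a b => ?_, fun k l u hu a => ?_⟩
  · intro u _
    exact analyticAt_const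
  · have e1 : e0 k false u = (1, 0) := rfl
    have e2 : e0 k true u = (0, 1) := rfl
    rw [e1, e2] at h
    have g1 := congrArg Prod.fst h
    have g2 := congrArg Prod.snd h
    simp only [Prod.smul_mk, Prod.mk_add_mk, smul_eq_mul, mul_one, mul_zero, add_zero, zero_add,
      Prod.fst_zero, Prod.snd_zero] at g1 g2
    exact ⟨g1, g2⟩
  · intro u hu
    by_cases hab : a = b
    · subst hab
      cases a
      · have e : A0 k l false false = fun u => h2 (k.1 = l.1) u.1 := by
          funext u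
          simp [A0, h2]
        rw [e]
        exact (h2_an _ hu.1).fun_comp analyticAt_fst
      · have e : A0 k l true true = fun u => h2 (k.2 = l.2) u.2 := by
          funext u
          simp [A0, h2]
        rw [e]
        exact (h2_an _ hu.2).fun_comp analyticAt_snd
    · have e : A0 k l a b = fun _ => 0 := by
        funext u
        simp [A0, hab]
      rw [e]
      exact analyticAt_const
  · rw [tr0_fderiv k l hu]
    cases a
    · simp only [A0, h2, e0]
      split_ifs <;> simp_all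
    · simp only [A0, h2, e0]
      split_ifs <;> simp_all

end Pool.Agent.Q79.SM
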