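import Pool.Agent.Q79.SM.C1

/-!
# Project SM of helper72 (MP_0aacdf_an): job BND (forms are bounded by the metric)
-/

set_option autoImplicit false

namespace Pool.Agent.Q79.SM

open Set Filter Topology MeasureTheory Complex
open Pool.Agent.Q72.SM

variable {E : Type} [NormedAddCommGroup E] [NormedSpace ℂ E]

/-- the coordinate of a holomorphic curve in a given chart around the point -/
theorem coord {X : CMfd E} {g : ℂ → X.Pt} (hg : IsHolo X g) {z : ℂ} {i : X.ι} {u : E}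
    (hu : X.φ i u = g z) : ∃ c : ℂ → E, AnalyticAt ℂ c z ∧ c z = u ∧
      ∀ᶠ w in 𝓝 z, g w = X.φ i (c w) := by
  obtain ⟨j, c, hc, hgc⟩ := hg z
  have h0 : g z = X.φ j (c z) := hgc.self_of_nhds
  have hm : c z ∈ X.dom j i := X.mem_dom (hu.trans h0)
  refine ⟨fun w => X.tr j i (c w), (X.tr_analytic j i (c z) hm).fun_comp hc,
    X.tr_eq j i (hu.trans h0), ?_⟩
  have h1 : ∀ᶠ w in 𝓝 z, c w ∈ X.dom j i :=
    hc.continuousAt.eventually ((X.isOpen_dom j i).mem_nhds hm)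
  filter_upwards [hgc, h1] with w hw hw'
  rw [hw, X.φ_tr j i hw']

/-- uniform positivity of the metric in a chart -/
theorem pos_chart [FiniteDimensional ℂ E] {X : CMfd E} {ω : Form X} (hω : IsMetric ω) (i : X.ι) :
    ∃ κ : ℝ, 0 < κ ∧ ∀ u v : E, ‖u‖ ≤ 1 → κ * ‖v‖ ^ 2 ≤ ω.1 i u v (I • v) := by
  have : ProperSpace E := FiniteDimensional.proper ℂ E
  obtain ⟨f, hf⟩ : ∃ f : E × E → ℝ, f = fun p => ω.1 i p.1 p.2 (I • p.2) := ⟨_, rfl⟩
  have hfc : Continuous f := by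
    rw [hf]
    exact (((ω.2.1 i).comp continuous_fst).clm_apply continuous_snd).clm_apply
      (continuous_snd.const_smul I)
  obtain ⟨T, hT⟩ : ∃ T : Set (E × E), T = Metric.closedBall 0 1 ×ˢ Metric.sphere 0 1 := ⟨_, rfl⟩
  have hTc : IsCompact T := by
    rw [hT]
    exact (isCompact_closedBall 0 1).prod (isCompact_sphere 0 1)
  -- reduction to the sphere
  have hred : ∀ m : ℝ, (∀ p ∈ T, m ≤ f p) → ∀ u v : E, ‖u‖ ≤ 1 → m * ‖v‖ ^ 2 ≤
      ω.1 i u v (I • v) := by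
    intro m hm u v hu
    by_cases hv : v = 0
    · rw [hv]
      simp
    · have hn : ‖v‖ ≠ 0 := norm_ne_zero_iff.2 hv
      have h1 : ((u, ‖v‖⁻¹ • v) : E × E) ∈ T := by
        rw [hT]
        refine ⟨mem_closedBall_zero_iff.2 hu, mem_sphere_zero_iff_norm.2 ?_⟩
        rw [norm_smul, norm_inv, norm_norm, inv_mul_cancel₀ hn]
      have h2 := hm _ h1
      rw [hf] at h2
      have h3 : ω.1 i u (‖v‖⁻¹ • v) (I • (‖v‖⁻¹ • v)) = ‖v‖⁻¹ * (‖v‖⁻¹ * ω.1 i u v (I • v)) := by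
        have e : I • (‖v‖⁻¹ • v) = ‖v‖⁻¹ • (I • v) := smul_comm _ _ _
        rw [e, (ω.1 i u (‖v‖⁻¹ • v)).map_smul, (ω.1 i u).map_smul]
        rfl
      have h4 : m ≤ ‖v‖⁻¹ * (‖v‖⁻¹ * ω.1 i u v (I • v)) := by
        rw [← h3]
        exact h2
      calc m * ‖v‖ ^ 2 ≤ ‖v‖⁻¹ * (‖v‖⁻¹ * ω.1 i u v (I • v)) * ‖v‖ ^ 2 :=
            mul_le_mul_of_nonneg_right h4 (by positivity)
        _ = ω.1 i u v (I • v) := by
            field_simp
  rcases T.eq_empty_or_nonempty with h0 | h0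
  · refine ⟨1, one_pos, hred 1 ?_⟩
    intro p hp
    rw [h0] at hp
    exact absurd hp (notMem_empty p)
  · obtain ⟨p, hp, hmin⟩ := hTc.exists_isMinOn h0 hfc.continuousOn
    refine ⟨f p, ?_, hred (f p) fun q hq => hmin hq⟩
    rw [hf]
    rw [hT] at hp
    have hv : p.2 ≠ 0 := by
      intro h
      have h1 := mem_sphere_zero_iff_norm.1 hp.2
      rw [h, norm_zero] at h1
      exact zero_ne_one h1
    exact hω.2 i p.1 p.2 hv

theorem pos_all [FiniteDimensional ℂ E] {X : CMfd E} {ω : Form X} (hω : IsMetric ω) :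
    ∃ κ : ℝ, 0 < κ ∧ ∀ (i : X.ι) (u v : E), ‖u‖ ≤ 1 → κ * ‖v‖ ^ 2 ≤ ω.1 i u v (I • v) := by
  have : Finite X.ι := X.finite
  choose κ h1 h2 using pos_chart hω
  rcases isEmpty_or_nonempty X.ι with h0 | h0
  · exact ⟨1, one_pos, fun i => h0.elim i⟩
  · obtain ⟨i, hi⟩ := Finite.exists_min κ
    refine ⟨κ i, h1 i, fun j u v hu => ?_⟩
    exact (mul_le_mul_of_nonneg_right (hi j) (by positivity)).trans (h2 j u v hu)

theorem norm_bound {X : CMfd E} (η : Form X) (i : X.ι) (u v : E) :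
    |η.1 i u v (I • v)| ≤ ‖η.1 i u‖ * ‖v‖ ^ 2 := by
  have h1 := (η.1 i u v).le_opNorm (I • v)
  have h2 := (η.1 i u).le_opNorm v
  rw [Real.norm_eq_abs, norm_smul, norm_I, one_mul] at h1
  calc |η.1 i u v (I • v)| ≤ ‖η.1 i u v‖ * ‖v‖ := h1
    _ ≤ ‖η.1 i u‖ * ‖v‖ * ‖v‖ := mul_le_mul_of_nonneg_right h2 (norm_nonneg _)
    _ = _ := by ring

theorem bnd (_ : S_C1) : S_BND := by
  intro E _ _ _ X ω hω
  obtain ⟨κ, hκ, hpos⟩ := pos_all hω
  refine ⟨κ⁻¹, by positivity, fun g hg η M hM z => ?_⟩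
  obtain ⟨i, u, hu, hx⟩ := X.cover (g z)
  obtain ⟨c, hc, hcz, hgc⟩ := coord hg hx
  have hd := hc.differentiableAt.hasDerivAt
  rw [pull_eq X g i c z _ hd hgc η, pull_eq X g i c z _ hd hgc ω, hcz]
  have h1 := norm_bound η i u (deriv c z)
  have h2 := hpos i u (deriv c z) hu
  have h3 := hM i u hu
  have hM0 : 0 ≤ M := (norm_nonneg (η.1 i u)).trans h3
  calc |η.1 i u (deriv c z) (I • deriv c z)| ≤ ‖η.1 i u‖ * ‖deriv c z‖ ^ 2 := h1
    _ ≤ M * ‖deriv c z‖ ^ 2 := mul_le_mul_of_nonneg_right h3 (by positivity)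
    _ = κ⁻¹ * M * (κ * ‖deriv c z‖ ^ 2) := by
        field_simp
    _ ≤ κ⁻¹ * M * ω.1 i u (deriv c z) (I • deriv c z) :=
        mul_le_mul_of_nonneg_left h2 (by positivity)

end Pool.Agent.Q79.SM
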