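import Pool.Agent.Q72.SM.Stm2

/-!
# Project SM of helper72 (MP_0aacdf_an): jobs C1 (velocity and pull-back), TOP (the topology)
-/

set_option autoImplicit false

namespace Pool.Agent.Q79.SM

open Set Filter Topology MeasureTheory Complex
open Pool.Agent.Q72.SM

variable {E : Type} [NormedAddCommGroup E] [NormedSpace ℂ E]

theorem vel_eq (X : CMfd E) (g : ℂ → X.Pt) (i : X.ι) (c : ℂ → E) (z : ℂ) (v : E)
    (hc : HasDerivAt c v z) (hg : ∀ᶠ w in 𝓝 z, g w = X.φ i (c w)) :
    vel X g z = fderiv ℂ (X.tr i (X.ch (g z))) (c z) v := by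
  have h0 : g z = X.φ i (c z) := hg.self_of_nhds
  have hm : c z ∈ X.dom i (X.ch (g z)) := by
    rw [h0]
    exact X.mem_dom_ch i (c z)
  have h1 : HasFDerivAt (X.tr i (X.ch (g z))) (fderiv ℂ (X.tr i (X.ch (g z))) (c z)) (c z) :=
    (X.tr_analytic i (X.ch (g z)) (c z) hm).differentiableAt.hasFDerivAt
  have h2 := h1.comp_hasDerivAt z hc
  have h3 : (fun w => Function.invFun (X.φ (X.ch (g z))) (g w)) =ᶠ[𝓝 z]
      (X.tr i (X.ch (g z)) ∘ c) := by
    filter_upwards [hg] with w hw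
    rw [hw]
    rfl
  exact (h2.congr_of_eventuallyEq h3).deriv

theorem pull_eq (X : CMfd E) (g : ℂ → X.Pt) (i : X.ι) (c : ℂ → E) (z : ℂ) (v : E)
    (hc : HasDerivAt c v z) (hg : ∀ᶠ w in 𝓝 z, g w = X.φ i (c w)) (η : Form X) :
    pull η g z = η.1 i (c z) v (I • v) := by
  have h0 : g z = X.φ i (c z) := hg.self_of_nhds
  have hm : c z ∈ X.dom i (X.ch (g z)) := by
    rw [h0]
    exact X.mem_dom_ch i (c z)
  have h1 : X.co (g z) = X.tr i (X.ch (g z)) (c z) := by
    unfold CMfd.co CMfd.tr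
    rw [← h0]
  unfold pull
  rw [vel_eq X g i c z v hc hg, h1, ← map_smul]
  exact η.2.2.2 i (X.ch (g z)) (c z) hm v (I • v)

theorem c1 : S_C1 := by
  intro E _ _ _ X g
  refine ⟨fun i c z v hc hg => ⟨vel_eq X g i c z v hc hg, pull_eq X g i c z v hc hg⟩,
    fun hh η => ?_⟩
  have : CompleteSpace E := FiniteDimensional.complete ℂ E
  rw [continuous_iff_continuousAt]
  intro z
  obtain ⟨i, c, hc, hg⟩ := hh z
  have h1 : pull η g =ᶠ[𝓝 z] fun w => η.1 i (c w) (deriv c w) (I • deriv c w) := by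
    filter_upwards [hc.eventually_analyticAt, eventually_eventually_nhds.2 hg] with w hw hw'
    exact pull_eq X g i c w (deriv c w) hw.differentiableAt.hasDerivAt hw' η
  rw [continuousAt_congr h1]
  have h2 : ContinuousAt (fun w => η.1 i (c w)) z :=
    (η.2.1 i).continuousAt.comp hc.continuousAt
  have h3 : ContinuousAt (deriv c) z := hc.deriv.continuousAt
  exact (h2.clm_apply h3).clm_apply (h3.const_smul I)

theorem φ_cont (X : CMfd E) (i : X.ι) : Continuous (X.φ i) :=
  continuous_iSup_rng continuous_coinduced_rng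

theorem isOpen_iff_pt (X : CMfd E) (U : Set X.Pt) : IsOpen U ↔ ∀ i, IsOpen (X.φ i ⁻¹' U) := by
  show IsOpen[⨆ i, TopologicalSpace.coinduced (X.φ i) inferInstance] U ↔ _
  rw [isOpen_iSup_iff]
  exact forall_congr' fun k => isOpen_coinduced

theorem φ_open (X : CMfd E) (i : X.ι) : IsOpenMap (X.φ i) := by
  intro U hU
  rw [isOpen_iff_pt]
  intro j
  have e : X.φ j ⁻¹' (X.φ i '' U) = X.dom j i ∩ X.tr j i ⁻¹' U := by
    ext z
    constructor
    · rintro ⟨u, hu, huz⟩
      refine ⟨X.mem_dom huz, ?_⟩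
      show X.tr j i z ∈ U
      rw [X.tr_eq j i huz]
      exact hu
    · rintro ⟨hz, hu⟩
      exact ⟨X.tr j i z, hu, X.φ_tr j i hz⟩
  rw [e]
  have h2 : ContinuousOn (X.tr j i) (X.dom j i) :=
    fun w hw => (X.tr_analytic j i w hw).continuousAt.continuousWithinAt
  exact h2.isOpen_inter_preimage (X.isOpen_dom j i) hU

theorem φ_emb (X : CMfd E) (i : X.ι) : IsOpenEmbedding (X.φ i) :=
  .of_continuous_injective_isOpenMap (φ_cont X i) (X.inj i) (φ_open X i)

theorem top : S_TOP := by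
  intro E _ _ _ X
  have : ProperSpace E := FiniteDimensional.proper ℂ E
  have : Finite X.ι := X.finite
  refine ⟨φ_emb X, ?_, ?_⟩
  · refine ⟨?_⟩
    have h1 : (univ : Set X.Pt) = ⋃ i, X.φ i '' Metric.closedBall 0 1 := by
      symm
      rw [eq_univ_iff_forall]
      intro x
      obtain ⟨i, u, hu, hx⟩ := X.cover x
      rw [mem_iUnion]
      exact ⟨i, u, mem_closedBall_zero_iff.2 hu, hx⟩
    rw [h1]
    exact isCompact_iUnion fun i => (isCompact_closedBall 0 1).image (φ_cont X i)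
  · have : ∀ i, SecondCountableTopology (range (X.φ i)) := fun i =>
      (φ_emb X i).isEmbedding.toHomeomorph.symm.secondCountableTopology
    refine TopologicalSpace.secondCountableTopology_of_countable_cover
      (fun i => (φ_emb X i).isOpen_range) ?_
    rw [eq_univ_iff_forall]
    intro x
    obtain ⟨i, u, hu, hx⟩ := X.cover x
    rw [mem_iUnion]
    exact ⟨i, u, hx⟩

end Pool.Agent.Q79.SM
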