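import Pool.Agent.Q79.SM.B1

/-!
# Project SM of helper72 (MP_0aacdf_an): job EXP (all coordinates are exponentials)
-/

set_option autoImplicit false

namespace Pool.Agent.Q79.SM

open Set Filter Topology MeasureTheory Complex
open Pool.Agent.Q72.SM

/-- the exponents of the two components -/
noncomputable def Q (k : Bool × Bool) (b : Bool) : ℂ := if b then sg k.2 * (1 + I) else sg k.1

theorem sg_sq (b : Bool) : sg b * sg b = 1 := by
  cases b <;> simp [sg]

theorem sg_im (b : Bool) : (sg b).im = 0 := by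
  cases b <;> simp [sg]

theorem sg_re (b : Bool) : (sg b).re = 1 ∨ (sg b).re = -1 := by
  cases b <;> simp [sg]

theorem Q_false (k : Bool × Bool) : Q k false = sg k.1 := rfl

theorem Q_true (k : Bool × Bool) : Q k true = sg k.2 * (1 + I) := rfl

theorem Qf_im (k : Bool × Bool) : (Q k false).im = 0 := sg_im k.1

theorem Qt_im (k : Bool × Bool) : (Q k true).im = 1 ∨ (Q k true).im = -1 := by
  rw [Q_true]
  have : (sg k.2 * (1 + I)).im = (sg k.2).re := by
    simp [sg_im]
  rw [this]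
  exact sg_re k.2

theorem Q_ne (k : Bool × Bool) (b : Bool) : Q k b ≠ 0 := by
  intro h
  cases b
  · have h1 : (Q k false).re = 0 := by rw [h]; rfl
    rw [Q_false] at h1
    rcases sg_re k.1 with h2 | h2 <;> rw [h2] at h1 <;> norm_num at h1
  · have h1 : (Q k true).im = 0 := by rw [h]; rfl
    rcases Qt_im k with h2 | h2 <;> rw [h2] at h1 <;> norm_num at h1

theorem Q_sub (k : Bool × Bool) (b : Bool) : Q k (!b) - Q k b ≠ 0 := by
  intro h
  have h1 := congrArg Complex.im h
  rw [sub_im] at h1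
  have h0 := Qf_im k
  cases b
  · have h2 : (Q k true).im - (Q k false).im = 0 := h1
    rw [h0] at h2
    rcases Qt_im k with h3 | h3 <;> rw [h3] at h2 <;> norm_num at h2
  · have h2 : (Q k false).im - (Q k true).im = 0 := h1
    rw [h0] at h2
    rcases Qt_im k with h3 | h3 <;> rw [h3] at h2 <;> norm_num at h2

theorem Q_two (k : Bool × Bool) (b : Bool) : Q k (!b) - Q k b - Q k b ≠ 0 := by
  intro h
  have h1 := congrArg Complex.im h
  rw [sub_im, sub_im] at h1
  have h0 := Qf_im k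
  cases b
  · have h2 : (Q k true).im - (Q k false).im - (Q k false).im = 0 := h1
    rw [h0] at h2
    rcases Qt_im k with h3 | h3 <;> rw [h3] at h2 <;> norm_num at h2
  · have h2 : (Q k false).im - (Q k true).im - (Q k true).im = 0 := h1
    rw [h0] at h2
    rcases Qt_im k with h3 | h3 <;> rw [h3] at h2 <;> norm_num at h2

theorem a0_eq (k : Bool × Bool) (b : Bool) (z : ℂ) : a0 k b z = Q k b * exp (Q k b * z) := by
  cases b <;> rfl

theorem c0_eq (k : Bool × Bool) (z : ℂ) : c0 k z = (exp (Q k false * z), exp (Q k true * z)) := rfl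

theorem quot_exp {p q p' q' : ℂ} (z : ℂ) :
    p * exp (q * z) / (p' * exp (q' * z)) = p / p' * exp ((q - q') * z) := by
  rw [sub_mul, exp_sub, mul_div_mul_comm]

theorem der_exp (p q z : ℂ) : HasDerivAt (fun z => p * exp (q * z)) (p * (exp (q * z) * q)) z := by
  have h1 : HasDerivAt (fun z : ℂ => q * z) q z := by
    simpa using (hasDerivAt_id z).const_mul q
  exact (h1.cexp).const_mul p

theorem quot_eq (k : Bool × Bool) (b : Bool) (z : ℂ) :
    a0 k (!b) z / a0 k b z = Q k (!b) / Q k b * exp ((Q k (!b) - Q k b) * z) := by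
  rw [a0_eq, a0_eq, quot_exp]

theorem nA_false (k : (Bool × Bool) × Bool) (z : ℂ) :
    nA a0 k false z = Q k.1 k.2 * exp (Q k.1 k.2 * z) := a0_eq k.1 k.2 z

theorem nA_true (k : (Bool × Bool) × Bool) (z : ℂ) :
    nA a0 k true z = Q k.1 (!k.2) / Q k.1 k.2 * (Q k.1 (!k.2) - Q k.1 k.2) *
      exp ((Q k.1 (!k.2) - Q k.1 k.2) * z) := by
  have e : (fun w => a0 k.1 (!k.2) w / a0 k.1 k.2 w) =
      fun w => Q k.1 (!k.2) / Q k.1 k.2 * exp ((Q k.1 (!k.2) - Q k.1 k.2) * w) :=
    funext fun w => quot_eq k.1 k.2 w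
  show deriv (fun w => a0 k.1 (!k.2) w / a0 k.1 k.2 w) z = _
  rw [e, (der_exp _ _ z).deriv]
  ring

theorem exp1 : (∀ (k : Bool × Bool) (b : Bool), (∀ z, a0 k b z ≠ 0) ∧ Differentiable ℂ (a0 k b)) := by
  intro k b
  refine ⟨fun z => ?_, ?_⟩
  · rw [a0_eq]
    exact mul_ne_zero (Q_ne k b) (exp_ne_zero _)
  · have e : a0 k b = fun z => Q k b * exp (Q k b * z) := funext fun z => a0_eq k b z
    rw [e]
    exact fun z => (der_exp _ _ z).differentiableAt

theorem exp2 : ∀ (k : (Bool × Bool) × Bool) (b : Bool),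
    (∀ z, nA a0 k b z ≠ 0) ∧ Differentiable ℂ (nA a0 k b) := by
  intro k b
  cases b
  · refine ⟨fun z => ?_, ?_⟩
    · rw [nA_false]
      exact mul_ne_zero (Q_ne _ _) (exp_ne_zero _)
    · have e : nA a0 k false = fun z => Q k.1 k.2 * exp (Q k.1 k.2 * z) :=
        funext fun z => nA_false k z
      rw [e]
      exact fun z => (der_exp _ _ z).differentiableAt
  · refine ⟨fun z => ?_, ?_⟩
    · rw [nA_true]
      exact mul_ne_zero (mul_ne_zero (div_ne_zero (Q_ne _ _) (Q_ne _ _)) (Q_sub _ _))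
        (exp_ne_zero _)
    · have e : nA a0 k true = fun z => Q k.1 (!k.2) / Q k.1 k.2 * (Q k.1 (!k.2) - Q k.1 k.2) *
          exp ((Q k.1 (!k.2) - Q k.1 k.2) * z) := funext fun z => nA_true k z
      rw [e]
      exact fun z => (der_exp _ _ z).differentiableAt

/-- the last coordinate -/
theorem last_true (k : (Bool × Bool) × Bool) (z : ℂ) :
    nA a0 k false z / nA a0 k true z =
      Q k.1 k.2 / (Q k.1 (!k.2) / Q k.1 k.2 * (Q k.1 (!k.2) - Q k.1 k.2)) *
        exp ((Q k.1 k.2 - (Q k.1 (!k.2) - Q k.1 k.2)) * z) := by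
  rw [nA_false, nA_true, quot_exp]

theorem last_false (k : (Bool × Bool) × Bool) (z : ℂ) :
    nA a0 k true z / nA a0 k false z =
      Q k.1 (!k.2) / Q k.1 k.2 * (Q k.1 (!k.2) - Q k.1 k.2) / Q k.1 k.2 *
        exp ((Q k.1 (!k.2) - Q k.1 k.2 - Q k.1 k.2) * z) := by
  rw [nA_false, nA_true, quot_exp]

theorem exp3 : ∀ k : ((Bool × Bool) × Bool) × Bool, ∃ α γ : Fin 4 → ℂ, (∀ j, γ j ≠ 0) ∧
    ∀ z, nC (nC c0 a0) (nA a0) k z =
      (((α 0 * exp (γ 0 * z), α 1 * exp (γ 1 * z)), α 2 * exp (γ 2 * z)),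
        α 3 * exp (γ 3 * z)) := by
  rintro ⟨k, b⟩
  cases b
  · refine ⟨![1, 1, Q k.1 (!k.2) / Q k.1 k.2,
      Q k.1 (!k.2) / Q k.1 k.2 * (Q k.1 (!k.2) - Q k.1 k.2) / Q k.1 k.2],
      ![Q k.1 false, Q k.1 true, Q k.1 (!k.2) - Q k.1 k.2,
        Q k.1 (!k.2) - Q k.1 k.2 - Q k.1 k.2], ?_, fun z => ?_⟩
    · intro j
      fin_cases j
      · exact Q_ne k.1 false
      · exact Q_ne k.1 true
      · exact Q_sub k.1 k.2
      · exact Q_two k.1 k.2
    · show ((c0 k.1 z, a0 k.1 (!k.2) z / a0 k.1 k.2 z), nA a0 k true z / nA a0 k false z) =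
        (((1 * exp (Q k.1 false * z), 1 * exp (Q k.1 true * z)),
          Q k.1 (!k.2) / Q k.1 k.2 * exp ((Q k.1 (!k.2) - Q k.1 k.2) * z)),
          Q k.1 (!k.2) / Q k.1 k.2 * (Q k.1 (!k.2) - Q k.1 k.2) / Q k.1 k.2 *
            exp ((Q k.1 (!k.2) - Q k.1 k.2 - Q k.1 k.2) * z))
      rw [c0_eq, quot_eq, last_false, one_mul, one_mul]
  · refine ⟨![1, 1, Q k.1 (!k.2) / Q k.1 k.2,
      Q k.1 k.2 / (Q k.1 (!k.2) / Q k.1 k.2 * (Q k.1 (!k.2) - Q k.1 k.2))],
      ![Q k.1 false, Q k.1 true, Q k.1 (!k.2) - Q k.1 k.2,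
        Q k.1 k.2 - (Q k.1 (!k.2) - Q k.1 k.2)], ?_, fun z => ?_⟩
    · intro j
      fin_cases j
      · exact Q_ne k.1 false
      · exact Q_ne k.1 true
      · exact Q_sub k.1 k.2
      · intro h
        apply Q_two k.1 k.2
        have h' : Q k.1 k.2 - (Q k.1 (!k.2) - Q k.1 k.2) = 0 := h
        linear_combination -h'
    · show ((c0 k.1 z, a0 k.1 (!k.2) z / a0 k.1 k.2 z), nA a0 k false z / nA a0 k true z) =
        (((1 * exp (Q k.1 false * z), 1 * exp (Q k.1 true * z)),
          Q k.1 (!k.2) / Q k.1 k.2 * exp ((Q k.1 (!k.2) - Q k.1 k.2) * z)),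
          Q k.1 k.2 / (Q k.1 (!k.2) / Q k.1 k.2 * (Q k.1 (!k.2) - Q k.1 k.2)) *
            exp ((Q k.1 k.2 - (Q k.1 (!k.2) - Q k.1 k.2)) * z))
      rw [c0_eq, quot_eq, last_true, one_mul, one_mul]

theorem exp4 (z : ℂ) : nC (nC c0 a0) (nA a0) (((false, false), false), true) z =
      (((exp z, exp ((1 + I) * z)), (1 + I) * exp (I * z)), (I * (1 + I))⁻¹ * exp ((1 - I) * z)) := by
  have q0 : Q (false, false) false = 1 := rfl
  have q1 : Q (false, false) true = 1 + I := by
    show (1 : ℂ) * (1 + I) = 1 + I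
    ring
  have h1 := quot_eq (false, false) false z
  have h2 := last_true ((false, false), false) z
  have h3 : Q ((false, false), false).1 (!((false, false), false).2) = 1 + I := q1
  have h4 : Q ((false, false), false).1 ((false, false), false).2 = 1 := q0
  have h5 : Q (false, false) (!false) = 1 + I := q1
  rw [h3, h4] at h2
  rw [h5, q0] at h1
  show ((c0 (false, false) z, a0 (false, false) (!false) z / a0 (false, false) false z),
    nA a0 ((false, false), false) false z / nA a0 ((false, false), false) true z) = _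
  rw [h1, h2, c0_eq, q0, q1]
  have e1 : (1 + I - 1) = I := by ring
  have e2 : (1 : ℂ) / ((1 + I) / 1 * I) = (I * (1 + I))⁻¹ := by
    rw [div_one, one_div, mul_comm]
  rw [e1, e2, div_one, one_mul]

theorem ψ_exp (a : Bool) (q z : ℂ) : ψ a (exp (sg a * q * z)) = ((exp (q * z) : ℂ) : OnePoint ℂ) := by
  cases a
  · rw [ψ_false]
    show ((exp (1 * q * z) : ℂ) : OnePoint ℂ) = _
    rw [one_mul]
  · rw [ψ_true, if_neg (exp_ne_zero _), ← exp_neg]
    have : -(sg true * q * z) = q * z := by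
      show -((-1 : ℂ) * q * z) = q * z
      ring
    rw [this]

theorem exp_all : S_EXP := by
  refine ⟨exp1, exp2, exp3, exp4, fun k z => ?_, fun k z => ?_⟩
  · refine Prod.ext ?_ ?_
    · have h := ψ_exp k.1 1 z
      rw [mul_one, one_mul] at h
      exact h
    · exact ψ_exp k.2 (1 + I) z
  · have h1 := der_exp 1 (Q k false) z
    have h2 := der_exp 1 (Q k true) z
    simp only [one_mul] at h1 h2
    have h3 := h1.prodMk h2
    refine (HasDerivAt.congr_deriv (f := c0 k) h3 ?_)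
    have e0 : e0 k false (c0 k z) = ((1 : ℂ), (0 : ℂ)) := rfl
    have e1 : Pool.Agent.Q72.SM.e0 k true (c0 k z) = ((0 : ℂ), (1 : ℂ)) := rfl
    rw [e0, e1, a0_eq, a0_eq]
    refine Prod.ext ?_ ?_
    · show exp (Q k false * z) * Q k false = Q k false * exp (Q k false * z) * 1 + _ * 0
      ring
    · show exp (Q k true * z) * Q k true = _ * 0 + Q k true * exp (Q k true * z) * 1
      ring

end Pool.Agent.Q79.SM
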