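import Pool.Agent.Q72.SM.Stm2
import Pool.Agent.H366R3.ED.Polar

/-!
# Project SM of helper72 (MP_0aacdf_an): job LEN (the boundary terms are negligible)
-/

set_option autoImplicit false

namespace Pool.Agent.Q79.SM

open Set Filter Topology MeasureTheory Complex
open Pool.Agent.Q72.SM
open Pool.Agent.H366R3.ED (ann ann_open polar_avg)

/-- integral over the circle -/
noncomputable def cI (f : ℂ → ℝ) (t : ℝ) : ℝ := ∫ θ in (0 : ℝ)..2 * Real.pi, f (circleMap 0 t θ)

theorem cI_cont {f : ℂ → ℝ} (hf : Continuous f) : Continuous (cI f) := by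
  unfold cI
  apply intervalIntegral.continuous_parametric_intervalIntegral_of_continuous'
  have h1 : Continuous fun p : ℝ × ℝ => circleMap 0 p.1 p.2 := by
    simp only [circleMap]
    fun_prop
  exact hf.comp h1

theorem cI_int {f : ℂ → ℝ} (hf : Continuous f) (t : ℝ) :
    IntervalIntegrable (fun θ => f (circleMap 0 t θ)) volume 0 (2 * Real.pi) :=
  (hf.comp (continuous_circleMap 0 t)).intervalIntegrable _ _

theorem amgm {x t ε : ℝ} (hx : 0 ≤ x) (ht : 0 < t) (hε : 0 < ε) :
    √x ≤ ε / 2 * t * x + 1 / (2 * ε * t) := by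
  have h1 : 0 < ε * t := mul_pos hε ht
  have h2 := sq_nonneg (ε * t * √x - 1)
  have h3 : √x ^ 2 = x := Real.sq_sqrt hx
  have h4 : 2 * (ε * t) * √x ≤ (ε * t) ^ 2 * x + 1 := by
    have : (ε * t * √x - 1) ^ 2 = (ε * t) ^ 2 * √x ^ 2 - 2 * (ε * t) * √x + 1 := by ring
    rw [this, h3] at h2
    linarith
  have h5 : ε / 2 * t * x + 1 / (2 * ε * t) = ((ε * t) ^ 2 * x + 1) / (2 * (ε * t)) := by
    field_simp
  rw [h5, le_div_iff₀ (by positivity)]
  linarith

theorem cI_bound {p : ℂ → ℝ} (hp : Continuous p) (hp0 : ∀ z, 0 ≤ p z) {t ε : ℝ} (ht : 0 < t)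
    (hε : 0 < ε) : cI (fun z => √(p z)) t ≤ ε / 2 * (t * cI p t) + Real.pi / ε * t⁻¹ := by
  have hpi := Real.pi_pos
  have hs : Continuous fun z => √(p z) := hp.sqrt
  have h1 : cI (fun z => √(p z)) t ≤ ∫ θ in (0 : ℝ)..2 * Real.pi,
      (ε / 2 * t * p (circleMap 0 t θ) + 1 / (2 * ε * t)) := by
    refine intervalIntegral.integral_mono_on (by positivity) (cI_int hs t) ?_ fun θ _ =>
      amgm (hp0 _) ht hε
    exact ((cI_int hp t).const_mul _).add intervalIntegrable_const
  rw [intervalIntegral.integral_add ((cI_int hp t).const_mul _) intervalIntegrable_const,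
    intervalIntegral.integral_const_mul, intervalIntegral.integral_const, smul_eq_mul] at h1
  refine h1.trans (le_of_eq ?_)
  unfold cI
  field_simp
  ring

theorem len : S_LEN := by
  intro p C hp hp0 hC
  have hpi := Real.pi_pos
  have hs : Continuous fun z => √(p z) := hp.sqrt
  obtain ⟨G, hG⟩ : ∃ G : ℝ → ℝ, G = cI (fun z => √(p z)) := ⟨_, rfl⟩
  have hGc : Continuous G := by rw [hG]; exact cI_cont hs
  have hG0 : ∀ t, 0 ≤ G t := by
    intro t
    rw [hG]
    exact intervalIntegral.integral_nonneg (by positivity) fun θ _ => Real.sqrt_nonneg _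
  -- the inner integral
  have hin : ∀ t : ℝ, 0 < t → t⁻¹ * ∫ θ in Ioo 0 (2 * Real.pi), t * √(p (t * exp (θ * I))) =
      G t := by
    intro t ht
    rw [integral_const_mul, ← mul_assoc, inv_mul_cancel₀ ht.ne', one_mul, hG]
    unfold cI
    rw [intervalIntegral.integral_of_le (by positivity), integral_Ioc_eq_integral_Ioo]
    simp only [circleMap, zero_add]
  have hout : ∀ r : ℝ, 0 ≤ r → ∫ t in Ioo 0 r, t⁻¹ * ∫ θ in Ioo 0 (2 * Real.pi),
      t * √(p (t * exp (θ * I))) = ∫ t in (0 : ℝ)..r, G t := by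
    intro r hr
    rw [intervalIntegral.integral_of_le hr, integral_Ioc_eq_integral_Ioo]
    exact setIntegral_congr_fun measurableSet_Ioo fun t ht => hin t ht.1
  have hC0 : 0 ≤ C := by
    have h1 := hC 1 zero_le_one
    have h2 : 0 ≤ ∫ z in Metric.ball (0 : ℂ) 1, p z := integral_nonneg fun z => hp0 z
    linarith
  -- the area
  have harea : ∀ r : ℝ, 1 ≤ r → ∫ t in (1 : ℝ)..r, t * cI p t ≤ C * r := by
    intro r hr
    have hint : IntegrableOn p (Metric.ball (0 : ℂ) r) :=
      (hp.continuousOn.integrableOn_compact (isCompact_closedBall (0 : ℂ) r)).mono_set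
        Metric.ball_subset_closedBall
    have hsub : ann 1 r ⊆ Metric.ball (0 : ℂ) r := fun z hz => mem_ball_zero_iff.2 hz.2
    have h1 := polar_avg (a := 1) (b := r) zero_le_one (f := p) hp.continuousOn
      (hint.mono_set hsub)
    have h2 : ∫ t in (1 : ℝ)..r, t * cI p t = ∫ z in ann 1 r, p z := by
      rw [h1, intervalIntegral.integral_of_le hr, integral_Ioc_eq_integral_Ioo]
      congr 1
      funext t
      rw [Real.circleAverage, smul_eq_mul, smul_eq_mul]
      unfold cI
      field_simp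
    rw [h2]
    refine (setIntegral_mono_set hint (Eventually.of_forall hp0)
      (LE.le.eventuallyLE hsub)).trans (hC r (by linarith))
  -- the main estimate
  have hmain : ∀ ε : ℝ, 0 < ε → ∀ r : ℝ, 1 ≤ r → ∫ t in (0 : ℝ)..r, G t ≤
      (∫ t in (0 : ℝ)..1, G t) + (ε / 2 * (C * r) + Real.pi / ε * Real.log r) := by
    intro ε hε r hr
    rw [← intervalIntegral.integral_add_adjacent_intervals (hGc.intervalIntegrable 0 1)
      (hGc.intervalIntegrable 1 r)]
    have hH : Continuous fun t => t * cI p t := continuous_id.mul (cI_cont hp)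
    have hi1 : IntervalIntegrable (fun t => ε / 2 * (t * cI p t)) volume 1 r :=
      (hH.const_mul _).intervalIntegrable _ _
    have h0 : (0 : ℝ) ∉ uIcc 1 r := by
      rw [uIcc_of_le hr]
      intro h
      linarith [h.1]
    have hi2' : IntervalIntegrable (fun t : ℝ => t⁻¹) volume 1 r :=
      intervalIntegral.intervalIntegrable_inv (fun x hx h => h0 (h ▸ hx)) continuousOn_id
    have hi2 : IntervalIntegrable (fun t : ℝ => Real.pi / ε * t⁻¹) volume 1 r := hi2'.const_mul _
    have h1 : ∫ t in (1 : ℝ)..r, G t ≤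
        ∫ t in (1 : ℝ)..r, (ε / 2 * (t * cI p t) + Real.pi / ε * t⁻¹) := by
      refine intervalIntegral.integral_mono_on hr (hGc.intervalIntegrable _ _) (hi1.add hi2)
        fun t ht => ?_
      rw [hG]
      exact cI_bound hp hp0 (by linarith [ht.1]) hε
    rw [intervalIntegral.integral_add hi1 hi2, intervalIntegral.integral_const_mul,
      intervalIntegral.integral_const_mul, integral_inv h0, div_one] at h1
    have h2 := mul_le_mul_of_nonneg_left (harea r hr) (by positivity : (0 : ℝ) ≤ ε / 2)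
    linarith
  rw [Metric.tendsto_nhds]
  intro δ hδ
  obtain ⟨ε, hε⟩ : ∃ ε : ℝ, ε = δ / (C + 1) := ⟨_, rfl⟩
  have hε0 : 0 < ε := by rw [hε]; positivity
  have hεC : ε / 2 * C ≤ δ / 2 := by
    have : ε * C ≤ δ := by
      rw [hε, div_mul_eq_mul_div, div_le_iff₀ (by positivity)]
      nlinarith
    linarith
  have t1 : Tendsto (fun r : ℝ => Real.log r / r) atTop (𝓝 0) := by
    have h := Real.tendsto_pow_log_div_mul_add_atTop 1 0 1 one_ne_zero
    simpa using h
  have t2 : Tendsto (fun r : ℝ => (∫ t in (0 : ℝ)..1, G t) / r + Real.pi / ε * (Real.log r / r))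
      atTop (𝓝 0) := by
    have h1 : Tendsto (fun r : ℝ => (∫ t in (0 : ℝ)..1, G t) / r) atTop (𝓝 0) :=
      tendsto_const_nhds.div_atTop tendsto_id
    have h2 := h1.add (t1.const_mul (Real.pi / ε))
    simpa using h2
  have t3 : ∀ᶠ r : ℝ in atTop, (∫ t in (0 : ℝ)..1, G t) / r + Real.pi / ε * (Real.log r / r) <
      δ / 2 := t2.eventually (gt_mem_nhds (by positivity))
  filter_upwards [t3, eventually_ge_atTop (1 : ℝ)] with r hr1 hr2
  have hr0 : 0 < r := by linarith
  rw [hout r hr0.le, Real.dist_eq, sub_zero, abs_of_nonneg (mul_nonneg (by positivity)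
    (intervalIntegral.integral_nonneg hr0.le fun t _ => hG0 t))]
  have h1 := mul_le_mul_of_nonneg_left (hmain ε hε0 r hr2) (by positivity : (0 : ℝ) ≤ r⁻¹)
  have h2 : r⁻¹ * ((∫ t in (0 : ℝ)..1, G t) + (ε / 2 * (C * r) + Real.pi / ε * Real.log r)) =
      ε / 2 * C + ((∫ t in (0 : ℝ)..1, G t) / r + Real.pi / ε * (Real.log r / r)) := by
    field_simp
    ring
  rw [h2] at h1
  linarith

end Pool.Agent.Q79.SM
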