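import Pool.Agent.Q79.SM.Tra

/-!
# Project SM of helper72 (MP_0aacdf_an): jobs LIFT, VERT (lifts, vertical directions)
-/

set_option autoImplicit false

namespace Pool.Agent.Q79.SM

open Set Filter Topology MeasureTheory Complex
open Pool.Agent.Q72.SM

variable {E : Type} [NormedAddCommGroup E] [NormedSpace ℂ E]

/-- the velocity in the chart -/
theorem vel_smul {X : Dir E} {c : X.ι → ℂ → E} {a : X.ι → Bool → ℂ → ℂ} (i : X.ι) (b : Bool) (z : ℂ)
    (h : a i b z ≠ 0) :
    a i false z • X.e i false (c i z) + a i true z • X.e i true (c i z) =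
      a i b z • X.vec i b (c i z, a i (!b) z / a i b z) := by
  cases b
  · show _ = a i false z • (X.e i false (c i z) + (a i true z / a i false z) • X.e i true (c i z))
    rw [smul_add, smul_smul, mul_div_cancel₀ _ h]
  · show _ = a i true z • (X.e i true (c i z) + (a i false z / a i true z) • X.e i false (c i z))
    rw [smul_add, smul_smul, mul_div_cancel₀ _ h, add_comm]

theorem line_eq {X : Dir E} {g : ℂ → X.Pt} {c : X.ι → ℂ → E} {a : X.ι → Bool → ℂ → ℂ}
    (h : Coords X g c a) (k : X.ι × Bool) (z : ℂ) :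
    Submodule.span ℂ {X.push k.1 (c k.1 z)
      (X.vec k.1 k.2 (c k.1 z, a k.1 (!k.2) z / a k.1 k.2 z))} =
      Submodule.span ℂ {vel X.toCMfd g z} := by
  have h1 : vel X.toCMfd g z = a k.1 k.2 z • X.push k.1 (c k.1 z)
      (X.vec k.1 k.2 (c k.1 z, a k.1 (!k.2) z / a k.1 k.2 z)) := by
    rw [← map_smul, ← vel_smul k.1 k.2 z (h.ne k.1 k.2 z),
      vel_eq X.toCMfd g k.1 (c k.1) z _ (h.deriv k.1 z) (Eventually.of_forall fun w => (h.eq k.1 w).symm),
      ← h.eq k.1 z]
    rfl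
  rw [h1, Submodule.span_singleton_smul_eq (IsUnit.mk0 _ (h.ne k.1 k.2 z))]

theorem lift (_ : S_C1) : S_LIFT := by
  intro E _ _ _ X g c a h
  have : CompleteSpace E := FiniteDimensional.complete ℂ E
  obtain ⟨i0, _, _, _⟩ := X.cover (g 0)
  refine ⟨fun z => X.pφ (i0, false) (c i0 z, a i0 true z / a i0 false z), fun k z => ?_,
    fun z => ⟨h.eq i0 z, ?_⟩, fun z => ⟨(i0, false),
      fun z => (c i0 z, a i0 true z / a i0 false z), ?_, Eventually.of_forall fun w => rfl⟩,
      fun k z => ?_⟩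
  · apply Subtype.ext
    refine Prod.ext ((h.eq k.1 z).trans (h.eq i0 z).symm) ?_
    exact (line_eq h k z).trans (line_eq h (i0, false) z).symm
  · show vel X.toCMfd g z ∈ Submodule.span ℂ {X.push i0 (c i0 z)
      (X.vec i0 false (c i0 z, a i0 true z / a i0 false z))}
    have h1 := line_eq h (i0, false) z
    have h2 : vel X.toCMfd g z ∈ Submodule.span ℂ {vel X.toCMfd g z} :=
      Submodule.mem_span_singleton_self _
    rw [← h1] at h2
    exact h2
  · have hd : Differentiable ℂ (fun z => (c i0 z, a i0 true z / a i0 false z)) := by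
      intro w
      exact (h.deriv i0 w).differentiableAt.prodMk
        (((h.diff i0 true) w).div ((h.diff i0 false) w) (h.ne i0 false w))
    exact hd.analyticAt z
  · have h1 : DifferentiableAt ℂ (fun w => a k.1 (!k.2) w / a k.1 k.2 w) z :=
      ((h.diff k.1 (!k.2)) z).div ((h.diff k.1 k.2) z) (h.ne k.1 k.2 z)
    have h2 := (h.deriv k.1 z).prodMk h1.hasDerivAt
    refine h2.congr_deriv ?_
    have e0 : X.pe k false (c k.1 z, a k.1 (!k.2) z / a k.1 k.2 z) =
      (X.vec k.1 k.2 (c k.1 z, a k.1 (!k.2) z / a k.1 k.2 z), (0 : ℂ)) := rfl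
    have e1 : X.pe k true (c k.1 z, a k.1 (!k.2) z / a k.1 k.2 z) = ((0 : E), (1 : ℂ)) := rfl
    rw [e0, e1, vel_smul k.1 k.2 z (h.ne k.1 k.2 z)]
    refine Prod.ext ?_ ?_
    · show _ = _ • _ + _ • (0 : E)
      rw [smul_zero, add_zero]
    · show _ = _ • (0 : ℂ) + _ • (1 : ℂ)
      rw [smul_zero, zero_add, smul_eq_mul, mul_one]

theorem vert_iff (Y : Dir (E × ℂ))
    (h1 : ∀ (k l : Y.ι) (w : E × ℂ), w ∈ Y.dom k l → ∀ v : E × ℂ,
      (fderiv ℂ (Y.tr k l) w v).1 = 0 ↔ v.1 = 0) (k : Y.ι × Bool) (w : (E × ℂ) × ℂ) :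
    Y.pφ k w ∈ vert Y ↔ (Y.vec k.1 k.2 w).1 = 0 := by
  have h2 : Y.pφ k w ∈ vert Y ↔ (Y.push k.1 w.1 (Y.vec k.1 k.2 w)).1 = 0 := by
    constructor
    · intro h
      exact h _ (Submodule.mem_span_singleton_self _)
    · intro h v hv
      obtain ⟨c, hc⟩ := Submodule.mem_span_singleton.1 hv
      rw [← hc]
      show c • (Y.push k.1 w.1 (Y.vec k.1 k.2 w)).1 = 0
      rw [h, smul_zero]
  rw [h2]
  exact h1 k.1 _ w.1 (Y.mem_dom_ch k.1 w.1) _

theorem vert : S_VERT := by
  intro E _ _ Y h1 h2 h3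
  have g1 : ∀ (k : Y.ι) (w : (E × ℂ) × ℂ), Y.pφ (k, true) w ∈ Pool.Agent.Q72.SM.vert Y ↔ w.2 = 0 := by
    intro k w
    rw [vert_iff Y h1]
    have e : (Y.vec k true w).1 = w.2 • (Y.e k false w.1).1 := by
      show (Y.e k true w.1 + w.2 • Y.e k false w.1).1 = _
      rw [h2]
      show (0 : E) + w.2 • (Y.e k false w.1).1 = _
      rw [zero_add]
    show (Y.vec k true w).1 = 0 ↔ _
    rw [e, smul_eq_zero]
    exact or_iff_left (h3 k w.1)
  have g2 : ∀ (k : Y.ι) (w : (E × ℂ) × ℂ), Y.pφ (k, false) w ∉ Pool.Agent.Q72.SM.vert Y := by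
    intro k w
    rw [vert_iff Y h1]
    have e : (Y.vec k false w).1 = (Y.e k false w.1).1 := by
      show (Y.e k false w.1 + w.2 • Y.e k true w.1).1 = _
      rw [h2]
      show (Y.e k false w.1).1 + w.2 • (0 : E) = _
      rw [smul_zero, add_zero]
    show ¬ (Y.vec k false w).1 = 0
    rw [e]
    exact h3 k w.1
  refine ⟨g1, g2, ?_⟩
  rw [isClosed_iSup_iff]
  rintro ⟨k, b⟩
  rw [isClosed_coinduced]
  cases b
  · have e : Y.pφ (k, false) ⁻¹' Pool.Agent.Q72.SM.vert Y = ∅ := by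
      rw [eq_empty_iff_forall_notMem]
      exact fun w hw => g2 k w hw
    rw [e]
    exact isClosed_empty
  · have e : Y.pφ (k, true) ⁻¹' Pool.Agent.Q72.SM.vert Y = {w | w.2 = 0} := by
      ext w
      exact g1 k w
    rw [e]
    exact isClosed_eq continuous_snd continuous_const

end Pool.Agent.Q79.SM
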