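import Pool.Agent.Q79.SM.AreaC

/-!
# Project SM of helper72 (MP_0aacdf_an): job LOW (lower bound for the mass near the vertex fibre)
-/

set_option autoImplicit false

namespace Pool.Agent.Q79.SM

open Set Filter Topology MeasureTheory Complex
open Pool.Agent.Q72.SM

theorem vol_rect (a b c d : ℝ) (hab : a ≤ b) (hcd : c ≤ d) :
    (volume {z : ℂ | z.re ∈ Icc a b ∧ z.im ∈ Icc c d}).toReal = (b - a) * (d - c) := by
  have h1 : volume {z : ℂ | z.re ∈ Icc a b ∧ z.im ∈ Icc c d} =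
      ENNReal.ofReal (b - a) * ENNReal.ofReal (d - c) := by
    rw [← (Complex.volume_preserving_equiv_real_prod.symm).measure_preimage]
    · have e : Complex.measurableEquivRealProd.symm ⁻¹'
          {z : ℂ | z.re ∈ Icc a b ∧ z.im ∈ Icc c d} = Icc a b ×ˢ Icc c d := rfl
      rw [e, Measure.volume_eq_prod, Measure.prod_prod, Real.volume_Icc, Real.volume_Icc]
    · exact ((measurable_re measurableSet_Icc).inter
        (measurable_im measurableSet_Icc)).nullMeasurableSet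
  rw [h1, ENNReal.toReal_mul, ENNReal.toReal_ofReal (by linarith),
    ENNReal.toReal_ofReal (by linarith)]

/-- the coordinates -/
noncomputable def cL (z : ℂ) : E4 :=
  (((exp z, exp ((1 + I) * z)), (1 + I) * exp (I * z)), (I * (1 + I))⁻¹ * exp ((1 - I) * z))

/-- the velocity -/
noncomputable def vL (z : ℂ) : E4 :=
  (((1 * 1 * exp (1 * z), 1 * (1 + I) * exp ((1 + I) * z)), (1 + I) * I * exp (I * z)),
    (I * (1 + I))⁻¹ * (1 - I) * exp ((1 - I) * z))

theorem cL_deriv (z : ℂ) : HasDerivAt cL (vL z) z := by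
  have e : cL = fun z => (((1 * exp (1 * z), 1 * exp ((1 + I) * z)), (1 + I) * exp (I * z)),
      (I * (1 + I))⁻¹ * exp ((1 - I) * z)) := by
    funext z
    unfold cL
    simp only [one_mul]
  rw [e]
  exact (((der_exp' _ _ z).prodMk (der_exp' _ _ z)).prodMk (der_exp' _ _ z)).prodMk
    (der_exp' _ _ z)

theorem norm_1I_sq : ‖(1 : ℂ) + I‖ ^ 2 = 2 := by
  rw [← normSq_eq_norm_sq, normSq_apply]
  simp
  norm_num

theorem norm_exp_re (w : ℂ) : ‖exp w‖ = Real.exp w.re := Complex.norm_exp w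

theorem vL_low {z : ℂ} (hz : z.im ≤ 2) : 2 * Real.exp (-4) ≤ ‖vL z‖ ^ 2 := by
  have h1 : ‖(1 + I) * I * exp (I * z)‖ ≤ ‖vL z‖ := by
    have a1 := norm_fst_le (vL z)
    have a2 := norm_snd_le (vL z).1
    exact a2.trans a1
  have h2 : ‖(1 + I) * I * exp (I * z)‖ ^ 2 = 2 * Real.exp (-2 * z.im) := by
    rw [norm_mul, norm_mul, norm_I, mul_one, mul_pow, norm_1I_sq, norm_exp_re, ← Real.exp_nat_mul]
    congr 2
    simp
  have h3 : Real.exp (-4) ≤ Real.exp (-2 * z.im) := Real.exp_le_exp.2 (by linarith)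
  calc 2 * Real.exp (-4) ≤ 2 * Real.exp (-2 * z.im) := by linarith
    _ = ‖(1 + I) * I * exp (I * z)‖ ^ 2 := h2.symm
    _ ≤ ‖vL z‖ ^ 2 := pow_le_pow_left₀ (norm_nonneg _) h1 2

/-- the coordinates in the strip -/
theorem cL_small {z : ℂ} {δ : ℝ} (hδ : 0 < δ) (h1 : 1 ≤ z.im) (h2 : z.im ≤ 2)
    (h3 : z.re ≤ Real.log δ - 2) :
    ‖(cL z).1.1.1‖ ≤ δ ∧ ‖(cL z).1.1.2‖ ≤ δ ∧ ‖(cL z).1.2‖ ≤ 1 ∧ ‖(cL z).2‖ ≤ δ := by
  have e0 : ∀ x : ℝ, x ≤ Real.log δ → Real.exp x ≤ δ := fun x hx => by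
    calc Real.exp x ≤ Real.exp (Real.log δ) := Real.exp_le_exp.2 hx
      _ = δ := Real.exp_log hδ
  have n1 := norm_1I_sq
  refine ⟨?_, ?_, ?_, ?_⟩
  · show ‖exp z‖ ≤ δ
    rw [norm_exp_re]
    exact e0 _ (by linarith)
  · show ‖exp ((1 + I) * z)‖ ≤ δ
    rw [norm_exp_re]
    apply e0
    have : ((1 + I) * z).re = z.re - z.im := by simp
    rw [this]
    linarith
  · show ‖(1 + I) * exp (I * z)‖ ≤ 1
    rw [norm_mul, norm_exp_re]
    have : (I * z).re = -z.im := by simp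
    rw [this]
    have h4 : Real.exp (-z.im) ≤ Real.exp (-1) := Real.exp_le_exp.2 (by linarith)
    have h5 : Real.exp (-1) ≤ 1 / 2 := by
      rw [Real.exp_neg, ← one_div]
      apply one_div_le_one_div_of_le (by norm_num)
      have := Real.add_one_le_exp 1
      linarith
    have h6 : ‖(1 : ℂ) + I‖ ≤ 2 := by
      have := norm_nonneg ((1 : ℂ) + I)
      nlinarith
    calc ‖(1 : ℂ) + I‖ * Real.exp (-z.im) ≤ 2 * (1 / 2) :=
          mul_le_mul h6 (h4.trans h5) (Real.exp_pos _).le (by norm_num)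
      _ = 1 := by norm_num
  · show ‖(I * (1 + I))⁻¹ * exp ((1 - I) * z)‖ ≤ δ
    rw [norm_mul, norm_inv, norm_mul, norm_I, one_mul, norm_exp_re]
    have h5 : 1 ≤ ‖(1 : ℂ) + I‖ := by
      have := norm_nonneg ((1 : ℂ) + I)
      nlinarith
    have : ((1 - I) * z).re = z.re + z.im := by simp
    rw [this]
    calc ‖(1 : ℂ) + I‖⁻¹ * Real.exp (z.re + z.im) ≤ 1 * δ :=
          mul_le_mul (inv_le_one_of_one_le₀ h5) (e0 _ (by linarith)) (Real.exp_pos _).le
            zero_le_one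
      _ = δ := one_mul _

theorem low (_ : S_C1) (hN : S_NEV) : S_LOW := by
  intro X g i₀ ω hω hg hgr
  obtain ⟨κ, hκ, hpos⟩ := pos_chart hω i₀
  obtain ⟨b, hb⟩ : ∃ b : ℝ, b = κ * (2 * Real.exp (-4)) := ⟨_, rfl⟩
  have hb0 : 0 < b := by rw [hb]; positivity
  have hev : ∀ z, ∀ᶠ w in 𝓝 z, g w = X.φ i₀ (cL w) := fun z =>
    Eventually.of_forall fun w => (hg w).symm
  have hgz : ∀ z, g z = X.φ i₀ (cL z) := fun z => (hg z).symm
  refine ⟨b / 4, by positivity, fun U hU hUs => ?_⟩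
  -- the neighbourhood
  obtain ⟨K, hK⟩ : ∃ K : Set E4, K = (fun s : ℂ => ((((0, 0), s), 0) : E4)) ''
    Metric.closedBall 0 1 := ⟨_, rfl⟩
  have hKc : IsCompact K := by
    rw [hK]
    exact (isCompact_closedBall (0 : ℂ) 1).image (by fun_prop)
  have hW : IsOpen (X.φ i₀ ⁻¹' U) := hU.preimage (φ_cont X i₀)
  have hKW : K ⊆ X.φ i₀ ⁻¹' U := by
    rw [hK]
    rintro _ ⟨s, hs, rfl⟩
    exact hUs s (mem_closedBall_zero_iff.1 hs)
  obtain ⟨δ, hδ, hthick⟩ := hKc.exists_thickening_subset_open hW hKW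
  obtain ⟨ε, hε0, hε1, hε2⟩ : ∃ ε : ℝ, 0 < ε ∧ ε ≤ 1 ∧ ε < δ :=
    ⟨min 1 (δ / 2), lt_min one_pos (by positivity), min_le_left _ _,
      (min_le_right _ _).trans_lt (by linarith)⟩
  obtain ⟨R, hR0, hR⟩ : ∃ R : ℝ, 0 ≤ R ∧ -R ≤ Real.log ε - 2 :=
    ⟨|Real.log ε - 2|, abs_nonneg _, neg_abs_le _⟩
  have hin : ∀ z : ℂ, 1 ≤ z.im → z.im ≤ 2 → z.re ≤ -R → g z ∈ U ∧ ‖cL z‖ ≤ 1 := by
    intro z h1 h2 h3
    obtain ⟨q0, q1, q2, q3⟩ := cL_small hε0 h1 h2 (h3.trans hR)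
    constructor
    · rw [hgz]
      apply hthick
      rw [Metric.mem_thickening_iff]
      refine ⟨(((0, 0), (cL z).1.2), 0), ?_, ?_⟩
      · rw [hK]
        exact ⟨(cL z).1.2, mem_closedBall_zero_iff.2 q2, rfl⟩
      · have e : dist (cL z) ((((0, 0), (cL z).1.2), 0) : E4) =
            max (max (max ‖(cL z).1.1.1‖ ‖(cL z).1.1.2‖) 0) ‖(cL z).2‖ := by
          rw [dist_eq_norm]
          show max (max (max ‖(cL z).1.1.1 - 0‖ ‖(cL z).1.1.2 - 0‖) ‖(cL z).1.2 - (cL z).1.2‖)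
            ‖(cL z).2 - 0‖ = _
          rw [sub_zero, sub_zero, sub_zero, sub_self, norm_zero]
        rw [e]
        exact (max_le (max_le (max_le q0 q1) hε0.le) q3).trans_lt hε2
    · show max (max (max ‖(cL z).1.1.1‖ ‖(cL z).1.1.2‖) ‖(cL z).1.2‖) ‖(cL z).2‖ ≤ 1
      exact max_le (max_le (max_le (q0.trans hε1) (q1.trans hε1)) q2) (q3.trans hε1)
  refine ⟨4 * (R + 3), fun r hr χ hχ0 hχ1 => ?_⟩
  have hr0 : 0 < r := by linarith
  obtain ⟨p, hp⟩ : ∃ p : ℂ → ℝ, p = pull (mulForm χ ω) g := ⟨_, rfl⟩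
  have hpe : ∀ z, p z = χ (g z) * ω.1 i₀ (cL z) (vL z) (I • vL z) := by
    intro z
    rw [hp, pull_eq X g i₀ cL z (vL z) (cL_deriv z) (hev z)]
    show χ (X.φ i₀ (cL z)) * _ = _
    rw [hgz]
    rfl
  have hp0 : ∀ z, 0 ≤ p z := by
    intro z
    rw [hpe]
    refine mul_nonneg (hχ0 _) ?_
    by_cases h : vL z = 0
    · rw [h, smul_zero, map_zero]
    · exact (hω.2 i₀ _ _ h).le
  have hpb : ∀ z : ℂ, 1 ≤ z.im → z.im ≤ 2 → z.re ≤ -R → b ≤ p z := by
    intro z h1 h2 h3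
    obtain ⟨hzU, hz1⟩ := hin z h1 h2 h3
    rw [hpe]
    have h4 := hpos (cL z) (vL z) hz1
    have h5 := hχ1 (g z) hzU
    have h6 : b ≤ ω.1 i₀ (cL z) (vL z) (I • vL z) := by
      rw [hb]
      exact (mul_le_mul_of_nonneg_left (vL_low h2) hκ.le).trans h4
    calc b ≤ ω.1 i₀ (cL z) (vL z) (I • vL z) := h6
      _ ≤ _ := le_mul_of_one_le_left (hb0.le.trans h6) h5
  obtain ⟨hpc, C, hC0, hC⟩ := hgr (mulForm χ ω)
  rw [← hp] at hpc hC
  have hNr := (hN p C hpc hC r hr0.le).1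
  -- the area in the ball of radius `t`
  have harea : ∀ t : ℝ, R + 3 ≤ t → b * (t - 3 - R) ≤ ∫ z in Metric.ball (0 : ℂ) t, p z := by
    intro t ht
    obtain ⟨Q, hQ⟩ : ∃ Q : Set ℂ, Q = {z : ℂ | z.re ∈ Icc (-(t - 3)) (-R) ∧
      z.im ∈ Icc (1 : ℝ) 2} := ⟨_, rfl⟩
    have hvol : (volume Q).toReal = t - 3 - R := by
      rw [hQ, vol_rect _ _ _ _ (by linarith) (by norm_num)]
      ring
    have hQb : Q ⊆ Metric.ball 0 t := by
      rw [hQ]
      rintro z ⟨h1, h2⟩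
      rw [mem_ball_zero_iff]
      have h3 := Complex.norm_le_abs_re_add_abs_im z
      rw [abs_of_nonpos (by linarith [h1.2] : z.re ≤ 0), abs_of_nonneg (by linarith [h2.1])] at h3
      linarith [h1.1, h2.2]
    have hQm : MeasurableSet Q := by
      rw [hQ]
      exact (measurable_re measurableSet_Icc).inter (measurable_im measurableSet_Icc)
    have hint : IntegrableOn p (Metric.ball (0 : ℂ) t) :=
      (hpc.continuousOn.integrableOn_compact (isCompact_closedBall (0 : ℂ) t)).mono_set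
        Metric.ball_subset_closedBall
    have hfin : volume Q ≠ ⊤ := (measure_mono hQb |>.trans_lt measure_ball_lt_top).ne
    have h1 : b * (volume Q).toReal ≤ ∫ z in Q, p z := by
      rw [mul_comm]
      refine setIntegral_ge_of_const_le hQm hfin (fun z hz => ?_) (hint.mono_set hQb)
      rw [hQ] at hz
      exact hpb z hz.2.1 hz.2.2 hz.1.2
    rw [hvol] at h1
    exact h1.trans (setIntegral_mono_set hint (Eventually.of_forall hp0)
      (LE.le.eventuallyLE hQb))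
  obtain ⟨G, hG⟩ : ∃ G : ℝ → ℝ, G = fun t => t⁻¹ * ∫ z in Metric.ball (0 : ℂ) t, p z := ⟨_, rfl⟩
  have hnev : nev (mulForm χ ω) g r = ∫ t in Ioo 0 r, G t := by
    unfold nev
    rw [hG, hp]
  rw [← hG] at hNr
  rw [hnev]
  have h1 : ∫ t in Ioo (r / 2) r, G t ≤ ∫ t in Ioo 0 r, G t := by
    refine setIntegral_mono_set hNr ?_ (LE.le.eventuallyLE
      (Ioo_subset_Ioo_left (by linarith : (0 : ℝ) ≤ r / 2)))
    filter_upwards [ae_restrict_mem measurableSet_Ioo] with t ht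
    rw [hG]
    exact mul_nonneg (inv_nonneg.2 ht.1.le) (integral_nonneg fun z => hp0 z)
  have h2 : b / 2 * (volume (Ioo (r / 2) r)).toReal ≤ ∫ t in Ioo (r / 2) r, G t := by
    rw [mul_comm]
    refine setIntegral_ge_of_const_le measurableSet_Ioo ?_ (fun t ht => ?_)
      (hNr.mono_set (Ioo_subset_Ioo_left (by linarith : (0 : ℝ) ≤ r / 2)))
    · rw [Real.volume_Ioo]
      exact ENNReal.ofReal_ne_top
    · have ht0 : 0 < t := by linarith [ht.1]
      have h3 := harea t (by linarith [ht.1])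
      rw [hG]
      show b / 2 ≤ t⁻¹ * ∫ z in Metric.ball (0 : ℂ) t, p z
      rw [inv_mul_eq_div, le_div_iff₀ ht0]
      refine le_trans ?_ h3
      have h4 : t / 2 ≤ t - 3 - R := by linarith [ht.1]
      have := mul_le_mul_of_nonneg_left h4 hb0.le
      linarith
  have h3 : (volume (Ioo (r / 2) r)).toReal = r / 2 := by
    rw [Real.volume_Ioo, ENNReal.toReal_ofReal (by linarith)]
    ring
  rw [h3] at h2
  linarith

end Pool.Agent.Q79.SM
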