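import Pool.Agent.Q79.SM.C1

/-!
# Project SM of helper72 (MP_0aacdf_an): job METRIC (every manifold has a Hermitian metric)
-/

set_option autoImplicit false

namespace Pool.Agent.Q79.SM

open Set Filter Topology MeasureTheory Complex
open Pool.Agent.Q72.SM

/-- the form `(x, y) ↦ Im (conj x * y)` -/
noncomputable def B0 : ℂ →L[ℝ] ℂ →L[ℝ] ℝ :=
  ((ContinuousLinearMap.compL ℝ ℂ ℂ ℝ imCLM).comp (ContinuousLinearMap.mul ℝ ℂ)).comp
    (conjCLE : ℂ →L[ℝ] ℂ)

theorem B0_apply (x y : ℂ) : B0 x y = ((starRingEnd ℂ) x * y).im := rfl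

theorem B0_self (x : ℂ) : B0 x x = 0 := by
  rw [B0_apply, mul_im, conj_re, conj_im]
  ring

theorem B0_I (x y : ℂ) : B0 (I * x) (I * y) = B0 x y := by
  rw [B0_apply, B0_apply, map_mul, conj_I]
  congr 1
  linear_combination (-(starRingEnd ℂ) x * y) * I_mul_I

theorem B0_pos (x : ℂ) : B0 x (I * x) = ‖x‖ ^ 2 := by
  rw [B0_apply]
  have : (starRingEnd ℂ) x * (I * x) = ((‖x‖ ^ 2 : ℝ) : ℂ) * I := by
    rw [← normSq_eq_norm_sq, ← mul_conj]
    ring
  rw [this, im_ofReal_mul, I_im, mul_one]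

variable {E : Type} [NormedAddCommGroup E] [NormedSpace ℂ E]

theorem exists_beta (E : Type) [NormedAddCommGroup E] [NormedSpace ℂ E] [FiniteDimensional ℂ E] :
    ∃ β : E →L[ℝ] E →L[ℝ] ℝ, (∀ v, β v v = 0) ∧ (∀ v w, β (I • v) (I • w) = β v w) ∧
      ∀ v, v ≠ 0 → 0 < β v (I • v) := by
  obtain ⟨x, hx⟩ : ∃ x : Fin (Module.finrank ℂ E) → E →L[ℂ] ℂ,
      ∀ v, (∀ j, x j v = 0) → v = 0 := by
    refine ⟨fun j => LinearMap.toContinuousLinearMap ((Module.finBasis ℂ E).coord j),
      fun v hv => ?_⟩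
    apply (Module.finBasis ℂ E).ext_elem
    intro j
    have h := hv j
    rw [map_zero]
    exact h
  obtain ⟨β, hβ⟩ : ∃ β : E →L[ℝ] E →L[ℝ] ℝ, ∀ v w, β v w = ∑ j, B0 (x j v) (x j w) := by
    refine ⟨∑ j, B0.bilinearComp ((x j).restrictScalars ℝ) ((x j).restrictScalars ℝ),
      fun v w => ?_⟩
    rw [_root_.sum_apply, _root_.sum_apply]
    rfl
  refine ⟨β, fun v => ?_, fun v w => ?_, fun v hv => ?_⟩
  · rw [hβ]
    exact Finset.sum_eq_zero fun j _ => B0_self _
  · rw [hβ, hβ]
    refine Finset.sum_congr rfl fun j _ => ?_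
    rw [(x j).map_smul I v, (x j).map_smul I w]
    exact B0_I _ _
  · rw [hβ]
    have h1 : ∀ j, B0 (x j v) (x j (I • v)) = ‖x j v‖ ^ 2 := by
      intro j
      rw [(x j).map_smul I v]
      exact B0_pos _
    simp only [h1]
    have h2 : ∃ j, x j v ≠ 0 := by
      by_contra h
      push Not at h
      exact hv (hx v h)
    obtain ⟨j, hj⟩ := h2
    exact Finset.sum_pos' (fun j _ => by positivity)
      ⟨j, Finset.mem_univ j, by have := norm_pos_iff.2 hj; positivity⟩

/-- the cutoff function of a chart -/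
noncomputable def cut (X : CMfd E) (i : X.ι) (x : X.Pt) : ℝ :=
  open Classical in if x ∈ range (X.φ i) then max 0 (2 - ‖Function.invFun (X.φ i) x‖) else 0

theorem cut_φ (X : CMfd E) (i : X.ι) (u : E) : cut X i (X.φ i u) = max 0 (2 - ‖u‖) := by
  unfold cut
  rw [if_pos ⟨u, rfl⟩, Function.leftInverse_invFun (X.inj i) u]

theorem cut_out (X : CMfd E) (i : X.ι) {x : X.Pt} (hx : x ∉ range (X.φ i)) : cut X i x = 0 := by
  unfold cut
  rw [if_neg hx]

theorem cut_nonneg (X : CMfd E) (i : X.ι) (x : X.Pt) : 0 ≤ cut X i x := by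
  unfold cut
  split_ifs
  · exact le_max_left _ _
  · exact le_rfl

/-- outside of the chart the function vanishes in a neighbourhood -/
theorem cut_near [FiniteDimensional ℂ E] (X : CMfd E) (i : X.ι) {x : X.Pt}
    (hx : x ∉ range (X.φ i)) : ∀ᶠ y in 𝓝 x, cut X i y = 0 := by
  have : ProperSpace E := FiniteDimensional.proper ℂ E
  have h1 : IsClosed (X.φ i '' Metric.closedBall 0 2) :=
    ((isCompact_closedBall (0 : E) 2).image (φ_cont X i)).isClosed
  have h2 : x ∉ X.φ i '' Metric.closedBall 0 2 := by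
    rintro ⟨u, _, hu⟩
    exact hx ⟨u, hu⟩
  filter_upwards [h1.isOpen_compl.mem_nhds h2] with y hy
  by_cases h3 : y ∈ range (X.φ i)
  · obtain ⟨u, rfl⟩ := h3
    rw [cut_φ]
    have h4 : 2 < ‖u‖ := by
      by_contra h
      push Not at h
      exact hy ⟨u, mem_closedBall_zero_iff.2 h, rfl⟩
    exact max_eq_left (by linarith)
  · exact cut_out X i h3

theorem cut_cont (X : CMfd E) (i j : X.ι) {u : E} (hu : u ∈ X.dom j i) :
    ContinuousAt (fun u => cut X i (X.φ j u)) u := by
  have h1 : (fun u => cut X i (X.φ j u)) =ᶠ[𝓝 u] fun u => max 0 (2 - ‖X.tr j i u‖) := by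
    filter_upwards [(X.isOpen_dom j i).mem_nhds hu] with w hw
    rw [← X.φ_tr j i hw, cut_φ]
  rw [continuousAt_congr h1]
  exact continuousAt_const.max (continuousAt_const.sub
    ((X.tr_analytic j i u hu).continuousAt.norm))

/-- one term of the metric -/
noncomputable def term (X : CMfd E) (β : E →L[ℝ] E →L[ℝ] ℝ) (i j : X.ι) (u : E) :
    E →L[ℝ] E →L[ℝ] ℝ :=
  cut X i (X.φ j u) • β.bilinearComp ((fderiv ℂ (X.tr j i) u).restrictScalars ℝ)
    ((fderiv ℂ (X.tr j i) u).restrictScalars ℝ)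

theorem term_apply (X : CMfd E) (β : E →L[ℝ] E →L[ℝ] ℝ) (i j : X.ι) (u v w : E) :
    term X β i j u v w = cut X i (X.φ j u) * β (fderiv ℂ (X.tr j i) u v)
      (fderiv ℂ (X.tr j i) u w) := rfl

theorem comp_cont [FiniteDimensional ℂ E] (β : E →L[ℝ] E →L[ℝ] ℝ) :
    Continuous (fun A : E →L[ℂ] E => β.bilinearComp (A.restrictScalars ℝ)
      (A.restrictScalars ℝ)) := by
  have : FiniteDimensional ℝ E := FiniteDimensional.complexToReal E
  rw [continuous_clm_apply]
  intro v
  rw [continuous_clm_apply]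
  intro w
  show Continuous (fun A : E →L[ℂ] E => β (A v) (A w))
  have h1 : ∀ v : E, Continuous (fun A : E →L[ℂ] E => A v) := fun v =>
    continuous_id.clm_apply continuous_const
  exact (β.continuous.comp (h1 v)).clm_apply (h1 w)

theorem term_cont [FiniteDimensional ℂ E] (X : CMfd E) (β : E →L[ℝ] E →L[ℝ] ℝ) (i j : X.ι) :
    Continuous (term X β i j) := by
  have : CompleteSpace E := FiniteDimensional.complete ℂ E
  rw [continuous_iff_continuousAt]
  intro u
  by_cases hu : u ∈ X.dom j i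
  · have h1 : ContinuousAt (fun u => fderiv ℂ (X.tr j i) u) u :=
      (X.tr_analytic j i u hu).fderiv.continuousAt
    exact (cut_cont X i j hu).smul ((comp_cont β).continuousAt.comp h1)
  · have h1 : ∀ᶠ w in 𝓝 u, cut X i (X.φ j w) = 0 :=
      (φ_cont X j).continuousAt.eventually (cut_near X i hu)
    have h2 : term X β i j =ᶠ[𝓝 u] fun _ => 0 := by
      filter_upwards [h1] with w hw
      ext v v'
      rw [term_apply, hw, zero_mul]
      rfl
    rw [continuousAt_congr h2]
    exact continuousAt_const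

theorem metric (_ : S_TOP) : S_METRIC := by
  intro E _ _ _ X
  obtain ⟨β, hβ0, hβI, hβp⟩ := exists_beta E
  have : Finite X.ι := X.finite
  have := Fintype.ofFinite X.ι
  refine ⟨⟨fun j u => ∑ i, term X β i j u, fun j => ?_, fun j u v => ?_,
    fun j k u hu v w => ?_⟩, fun j u v w => ?_, fun j u v hv => ?_⟩
  · exact continuous_finsetSum _ fun i _ => term_cont X β i j
  · rw [_root_.sum_apply, _root_.sum_apply]
    refine Finset.sum_eq_zero fun i _ => ?_
    rw [term_apply, hβ0, mul_zero]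
  · simp only [_root_.sum_apply]
    refine Finset.sum_congr rfl fun i _ => ?_
    rw [term_apply, term_apply, X.φ_tr j k hu]
    by_cases h : X.φ j u ∈ range (X.φ i)
    · rw [X.fderiv_tr j k i hu h, X.fderiv_tr j k i hu h]
    · rw [cut_out X i h, zero_mul, zero_mul]
  · show (∑ i, term X β i j u) (I • v) (I • w) = (∑ i, term X β i j u) v w
    simp only [_root_.sum_apply]
    refine Finset.sum_congr rfl fun i _ => ?_
    rw [term_apply, term_apply, (fderiv ℂ (X.tr j i) u).map_smul I v,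
      (fderiv ℂ (X.tr j i) u).map_smul I w, hβI]
  · show 0 < (∑ i, term X β i j u) v (I • v)
    simp only [_root_.sum_apply]
    have h0 : ∀ i, 0 ≤ term X β i j u v (I • v) := by
      intro i
      rw [term_apply, (fderiv ℂ (X.tr j i) u).map_smul I v]
      refine mul_nonneg (cut_nonneg X i _) ?_
      by_cases h : fderiv ℂ (X.tr j i) u v = 0
      · rw [h, smul_zero, map_zero]
      · exact (hβp _ h).le
    obtain ⟨i, w, hw, hx⟩ := X.cover (X.φ j u)
    refine Finset.sum_pos' (fun i _ => h0 i) ⟨i, Finset.mem_univ i, ?_⟩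
    rw [term_apply, (fderiv ℂ (X.tr j i) u).map_smul I v, ← hx, cut_φ]
    refine mul_pos (lt_max_of_lt_right (by linarith)) (hβp _ ?_)
    have hm : u ∈ X.dom j i := X.mem_dom hx
    intro h
    apply hv
    apply X.fderiv_tr_inj j i hm
    rw [h, map_zero]

end Pool.Agent.Q79.SM
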