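import Pool.Agent.Q79.SM.P12

/-!
# Project SM of helper72 (MP_0aacdf_an): jobs P3, P4 (transition maps of the projectivization)
-/

set_option autoImplicit false

namespace Pool.Agent.Q79.SM

open Set Filter Topology
open Pool.Agent.Q72.SM

variable {E : Type} [NormedAddCommGroup E] [NormedSpace ℂ E] (X : Dir E)

/-- the image of the direction under the differential of the transition map -/
theorem key (k l : X.ι × Bool) (w : E × ℂ) (hw : w ∈ X.pdom k l) :
    fderiv ℂ (X.tr k.1 l.1) w.1 (X.vec k.1 k.2 w) =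
      X.cf k.1 l.1 k.2 l.2 w • X.vec l.1 l.2 (X.ptr k l w) := by
  obtain ⟨j, b⟩ := l
  obtain ⟨h1, h2⟩ := hw
  rw [p1a X k.1 j k.2 w h1]
  cases b
  · have h2' : X.cf k.1 j k.2 false w ≠ 0 := h2
    show _ = X.cf k.1 j k.2 false w • (X.e j false (X.tr k.1 j w.1) +
      (X.cf k.1 j k.2 true w / X.cf k.1 j k.2 false w) • X.e j true (X.tr k.1 j w.1))
    rw [smul_add, smul_smul, mul_div_cancel₀ _ h2']
  · have h2' : X.cf k.1 j k.2 true w ≠ 0 := h2
    show _ = X.cf k.1 j k.2 true w • (X.e j true (X.tr k.1 j w.1) +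
      (X.cf k.1 j k.2 false w / X.cf k.1 j k.2 true w) • X.e j false (X.tr k.1 j w.1))
    rw [smul_add, smul_smul, mul_div_cancel₀ _ h2', add_comm]

theorem p3a (k l : X.ι × Bool) (w : E × ℂ) (hw : w ∈ X.pdom k l) :
    X.pφ l (X.ptr k l w) = X.pφ k w := by
  apply Subtype.ext
  refine Prod.ext (X.φ_tr k.1 l.1 hw.1) ?_
  show Submodule.span ℂ {X.push l.1 (X.tr k.1 l.1 w.1) (X.vec l.1 l.2 (X.ptr k l w))} =
    Submodule.span ℂ {X.push k.1 w.1 (X.vec k.1 k.2 w)}
  rw [← X.push_fderiv k.1 l.1 hw.1 (X.vec k.1 k.2 w), key X k l w hw, map_smul,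
    Submodule.span_singleton_smul_eq (IsUnit.mk0 _ hw.2)]

theorem p3b (k l : X.ι × Bool) (w w' : E × ℂ) (h : X.pφ l w' = X.pφ k w) : w ∈ X.pdom k l := by
  obtain ⟨h1, h2⟩ := Prod.ext_iff.1 (Subtype.ext_iff.1 h)
  have h1' : X.φ l.1 w'.1 = X.φ k.1 w.1 := h1
  have h2' : Submodule.span ℂ {X.push l.1 w'.1 (X.vec l.1 l.2 w')} =
    Submodule.span ℂ {X.push k.1 w.1 (X.vec k.1 k.2 w)} := h2
  have hd : w.1 ∈ X.dom k.1 l.1 := X.mem_dom h1'
  refine ⟨hd, ?_⟩
  have ht : X.tr k.1 l.1 w.1 = w'.1 := X.tr_eq k.1 l.1 h1'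
  obtain ⟨c, hc⟩ := span_eq_smul h2'
  rw [← X.push_fderiv k.1 l.1 hd (X.vec k.1 k.2 w), ht, ← map_smul] at hc
  have h3 := X.push_inj l.1 w'.1 hc
  rw [p1a X k.1 l.1 k.2 w hd, ht] at h3
  have hv := X.vec_ne_zero l.1 l.2 w'
  intro h0
  obtain ⟨j, b⟩ := l
  -- the coefficient of `e j b`
  have h4 : ∀ d : Bool, c * X.cf k.1 j k.2 d w = 1 ∨ d ≠ b := by
    intro d
    by_cases hdb : d = b
    · left
      subst hdb
      cases d
      · have h5 : c • (X.cf k.1 j k.2 false w • X.e j false w'.1 +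
            X.cf k.1 j k.2 true w • X.e j true w'.1) = X.e j false w'.1 +
              w'.2 • X.e j true w'.1 := h3
        have h6 : (c * X.cf k.1 j k.2 false w - 1) • X.e j false w'.1 +
            (c * X.cf k.1 j k.2 true w - w'.2) • X.e j true w'.1 = 0 := by
          rw [← sub_eq_zero.2 h5]
          module
        exact sub_eq_zero.1 (X.indep j w'.1 _ _ h6).1
      · have h5 : c • (X.cf k.1 j k.2 false w • X.e j false w'.1 +
            X.cf k.1 j k.2 true w • X.e j true w'.1) = X.e j true w'.1 +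
              w'.2 • X.e j false w'.1 := h3
        have h6 : (c * X.cf k.1 j k.2 false w - w'.2) • X.e j false w'.1 +
            (c * X.cf k.1 j k.2 true w - 1) • X.e j true w'.1 = 0 := by
          rw [← sub_eq_zero.2 h5]
          module
        exact sub_eq_zero.1 (X.indep j w'.1 _ _ h6).2
    · right
      exact hdb
  rcases h4 b with h5 | h5
  · have h0' : X.cf k.1 j k.2 b w = 0 := h0
    rw [h0', mul_zero] at h5
    exact zero_ne_one h5
  · exact h5 rfl

theorem p3 (_ : S_P1) : S_P3 := fun E _ _ X =>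
  ⟨fun k l w hw => p3a X k l w hw, fun k l w w' h => p3b X k l w w' h⟩

theorem cf_an (i j : X.ι) (a b : Bool) (w : E × ℂ) (hw : w.1 ∈ X.dom i j) :
    AnalyticAt ℂ (X.cf i j a b) w := by
  have h1 : AnalyticAt ℂ (fun z : E × ℂ => X.A i j a b z.1) w :=
    (X.A_analytic i j a b w.1 hw).fun_comp analyticAt_fst
  have h2 : AnalyticAt ℂ (fun z : E × ℂ => X.A i j (!a) b z.1) w :=
    (X.A_analytic i j (!a) b w.1 hw).fun_comp analyticAt_fst
  exact h1.add (analyticAt_snd.mul h2)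

theorem pdom_open (k l : X.ι × Bool) : IsOpen (X.pdom k l) := by
  have h1 : IsOpen {w : E × ℂ | w.1 ∈ X.dom k.1 l.1} :=
    (X.isOpen_dom k.1 l.1).preimage continuous_fst
  have h2 : ContinuousOn (X.cf k.1 l.1 k.2 l.2) {w : E × ℂ | w.1 ∈ X.dom k.1 l.1} :=
    fun w hw => (cf_an X k.1 l.1 k.2 l.2 w hw).continuousAt.continuousWithinAt
  exact h2.isOpen_inter_preimage h1 (isOpen_ne (x := (0 : ℂ)))

theorem ptr_an (k l : X.ι × Bool) (w : E × ℂ) (hw : w ∈ X.pdom k l) :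
    AnalyticAt ℂ (X.ptr k l) w := by
  have h1 : AnalyticAt ℂ (fun z : E × ℂ => X.tr k.1 l.1 z.1) w :=
    (X.tr_analytic k.1 l.1 w.1 hw.1).fun_comp analyticAt_fst
  exact h1.prod ((cf_an X _ _ _ _ w hw.1).div (cf_an X _ _ _ _ w hw.1) hw.2)

theorem p4 : S_P4 := fun E _ _ X =>
  ⟨fun k l => pdom_open X k l, fun k l w hw => ptr_an X k l w hw⟩

end Pool.Agent.Q79.SM
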