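import Pool.Agent.Q72.SM.Stm2

/-!
# Project SM of helper72 (MP_0aacdf_an): job SEQ (weak compactness)
-/

set_option autoImplicit false

namespace Pool.Agent.Q79.SM

open Set Filter Topology MeasureTheory Complex
open Pool.Agent.Q72.SM

/-- abstract form: functionals which are bounded by a seminorm with separable quotient -/
theorem seq_abs {V Z : Type} [AddCommMonoid V] [Module ℝ V] [NormedAddCommGroup Z]
    [NormedSpace ℝ Z] [SecondCountableTopology Z] (ρ : V →ₗ[ℝ] Z) (L : ℕ → V →ₗ[ℝ] ℝ) (C : ℝ)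
    (hL : ∀ n v, |L n v| ≤ C * ‖ρ v‖) :
    ∃ (f : ℕ → ℕ) (S : V → ℝ), StrictMono f ∧ ∀ v, Tendsto (fun n => L (f n) v) atTop (𝓝 (S v)) := by
  have hC : ∀ n v, |L n v| ≤ |C| * ‖ρ v‖ := fun n v =>
    (hL n v).trans (mul_le_mul_of_nonneg_right (le_abs_self _) (norm_nonneg _))
  obtain ⟨t, hts, htc, htd⟩ := (TopologicalSpace.IsSeparable.of_separableSpace
    (range ρ)).exists_countable_dense_subset
  have hne : t.Nonempty := by
    by_contra h
    rw [not_nonempty_iff_eq_empty] at h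
    have h1 : ρ 0 ∈ closure t := htd ⟨0, rfl⟩
    rw [h, closure_empty] at h1
    exact h1
  obtain ⟨e, he⟩ := htc.exists_eq_range hne
  have hev : ∀ k, ∃ v, ρ v = e k := fun k => hts (by rw [he]; exact ⟨k, rfl⟩)
  choose v hv using hev
  have hcomp : IsCompact (Set.pi univ fun k : ℕ => Icc (-(|C| * ‖ρ (v k)‖)) (|C| * ‖ρ (v k)‖)) :=
    isCompact_univ_pi fun k => isCompact_Icc
  obtain ⟨a, _, f, hf, hlim⟩ := hcomp.tendsto_subseq (x := fun n k => L n (v k))
    (fun n k _ => abs_le.1 (hC n (v k)))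
  rw [tendsto_pi_nhds] at hlim
  have hlim' : ∀ k, Tendsto (fun n => L (f n) (v k)) atTop (𝓝 (a k)) := hlim
  have hcau : ∀ w : V, CauchySeq fun n => L (f n) w := by
    intro w
    rw [Metric.cauchySeq_iff']
    intro ε hε
    obtain ⟨δ, hδ⟩ : ∃ δ : ℝ, δ = ε / (4 * (|C| + 1)) := ⟨_, rfl⟩
    have hC0 := abs_nonneg C
    have hδ0 : 0 < δ := by rw [hδ]; positivity
    have hδC : |C| * δ ≤ ε / 4 := by
      rw [hδ, mul_div_assoc', div_le_div_iff₀ (by positivity) (by norm_num)]
      nlinarith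
    obtain ⟨y, hy, hyd⟩ := Metric.mem_closure_iff.1 (htd (mem_range_self w)) δ hδ0
    rw [he] at hy
    obtain ⟨k, rfl⟩ := hy
    have hk : ‖ρ (w + (-1 : ℝ) • v k)‖ ≤ δ := by
      rw [map_add, map_smul, neg_smul, one_smul, ← sub_eq_add_neg, hv k, ← dist_eq_norm]
      exact hyd.le
    have hc : ∀ n, |L n w - L n (v k)| ≤ ε / 4 := by
      intro n
      have h1 : L n (w + (-1 : ℝ) • v k) = L n w - L n (v k) := by
        rw [map_add, map_smul, neg_smul, one_smul, ← sub_eq_add_neg]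
      rw [← h1]
      exact (hC n _).trans ((mul_le_mul_of_nonneg_left hk hC0).trans hδC)
    obtain ⟨N, hN⟩ := Metric.cauchySeq_iff'.1 (hlim' k).cauchySeq (ε / 4) (by positivity)
    refine ⟨N, fun n hn => ?_⟩
    have h1 := hN n hn
    rw [Real.dist_eq] at h1 ⊢
    have h2 := hc (f n)
    have h3 := hc (f N)
    have e1 : L (f n) w - L (f N) w = (L (f n) w - L (f n) (v k)) +
        (L (f n) (v k) - L (f N) (v k)) + -(L (f N) w - L (f N) (v k)) := by ring
    rw [e1]
    have h4 := abs_add_three (L (f n) w - L (f n) (v k)) (L (f n) (v k) - L (f N) (v k))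
      (-(L (f N) w - L (f N) (v k)))
    rw [abs_neg] at h4
    linarith
  choose S hS using fun w => cauchySeq_tendsto_of_complete (hcau w)
  exact ⟨f, S, hf, hS⟩

/-- the same for families of functions on a compact space -/
theorem seq_fun {V ι K F : Type} [AddCommMonoid V] [Module ℝ V] [Fintype ι] [TopologicalSpace K]
    [CompactSpace K] [T2Space K] [SecondCountableTopology K] [NormedAddCommGroup F]
    [NormedSpace ℝ F] [SecondCountableTopology F] (r : V → ι → K → F)
    (hadd : ∀ v w i u, r (v + w) i u = r v i u + r w i u)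
    (hsmul : ∀ (c : ℝ) v i u, r (c • v) i u = c • r v i u)
    (hc : ∀ v i, Continuous (r v i)) (L : ℕ → V →ₗ[ℝ] ℝ) (C : ℝ)
    (hL : ∀ (n : ℕ) (v : V) (M : ℝ), 0 ≤ M → (∀ i u, ‖r v i u‖ ≤ M) → |L n v| ≤ C * M) :
    ∃ (f : ℕ → ℕ) (S : V → ℝ), StrictMono f ∧ ∀ v, Tendsto (fun n => L (f n) v) atTop (𝓝 (S v)) := by
  obtain ⟨ρ, hρ⟩ : ∃ ρ : V →ₗ[ℝ] (ι → C(K, F)), ∀ v i u, ρ v i u = r v i u := by
    refine ⟨{ toFun := fun v i => ⟨r v i, hc v i⟩
              map_add' := fun v w => ?_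
              map_smul' := fun c v => ?_ }, fun _ _ _ => rfl⟩
    · funext i
      ext u
      exact hadd v w i u
    · funext i
      ext u
      exact hsmul c v i u
  refine seq_abs ρ L C fun n v => hL n v _ (norm_nonneg _) fun i u => ?_
  have h1 := (ρ v i).norm_coe_le_norm u
  rw [hρ] at h1
  exact h1.trans (norm_le_pi_norm (ρ v) i)

theorem seq : S_SEQ := by
  intro E _ _ _ X L C hL
  have : FiniteDimensional ℝ E := FiniteDimensional.complexToReal E
  have : ProperSpace E := FiniteDimensional.proper ℂ E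
  have : Finite X.ι := X.finite
  have := Fintype.ofFinite X.ι
  have : CompactSpace (Metric.closedBall (0 : E) 1) :=
    isCompact_iff_compactSpace.1 (isCompact_closedBall 0 1)
  have : ProperSpace (E →L[ℝ] E →L[ℝ] ℝ) :=
    FiniteDimensional.proper ℝ (E →L[ℝ] E →L[ℝ] ℝ)
  exact seq_fun (V := Form X) (ι := X.ι) (K := Metric.closedBall (0 : E) 1)
    (F := E →L[ℝ] E →L[ℝ] ℝ) (fun η i u => η.1 i u) (fun _ _ _ _ => rfl) (fun _ _ _ _ => rfl)
    (fun η i => (η.2.1 i).comp continuous_subtype_val) L C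
    fun n η M _ h => hL n η M fun i u hu => h i ⟨u, mem_closedBall_zero_iff.2 hu⟩

end Pool.Agent.Q79.SM
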