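import Pool.Agent.Q79.SM.C1

/-!
# Project SM of helper72 (MP_0aacdf_an): jobs RIESZ, MASS (the trace measure)
-/

set_option autoImplicit false

namespace Pool.Agent.Q79.SM

open Set Filter Topology MeasureTheory Complex
open Pool.Agent.Q72.SM
open scoped CompactlySupported

variable {E : Type} [NormedAddCommGroup E] [NormedSpace ℂ E]

theorem mulForm_add {X : CMfd E} (χ χ' : C(X.Pt, ℝ)) (η : Form X) :
    mulForm (χ + χ') η = mulForm χ η + mulForm χ' η := by
  apply Subtype.ext
  funext i u
  ext v w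
  show (χ (X.φ i u) + χ' (X.φ i u)) • η.1 i u v w =
    χ (X.φ i u) • η.1 i u v w + χ' (X.φ i u) • η.1 i u v w
  rw [add_smul]

theorem mulForm_smul {X : CMfd E} (c : ℝ) (χ : C(X.Pt, ℝ)) (η : Form X) :
    mulForm (c • χ) η = c • mulForm χ η := by
  apply Subtype.ext
  funext i u
  show (c * χ (X.φ i u)) • η.1 i u = c • (χ (X.φ i u) • η.1 i u)
  rw [mul_smul]

theorem riesz (h : S_TOP) : S_RIESZ := by
  intro E _ _ _ X ω S hadd hsmul hpos
  obtain ⟨_, hcomp, hsc⟩ := h E X
  obtain ⟨L, hL⟩ : ∃ L : C_c(X.Pt, ℝ) →ₗ[ℝ] ℝ, ∀ f, L f = S (mulForm f.toContinuousMap ω) :=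
    ⟨{ toFun := fun f => S (mulForm f.toContinuousMap ω)
       map_add' := fun f g => by
        have e : (f + g).toContinuousMap = f.toContinuousMap + g.toContinuousMap := rfl
        rw [e, mulForm_add, hadd]
       map_smul' := fun c f => by
        have e : (c • f).toContinuousMap = c • f.toContinuousMap := rfl
        rw [e, mulForm_smul, hsmul]
        rfl }, fun _ => rfl⟩
  let Λ : C_c(X.Pt, ℝ) →ₚ[ℝ] ℝ := PositiveLinearMap.mk₀ L (fun f hf => by
    rw [hL]
    exact hpos f.toContinuousMap fun x => hf x)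
  refine ⟨RealRMK.rieszMeasure Λ, inferInstance, fun χ => ?_⟩
  have h1 := RealRMK.integral_rieszMeasure Λ (CompactlySupportedContinuousMap.continuousMapEquiv χ)
  have h2 : Λ (CompactlySupportedContinuousMap.continuousMapEquiv χ) = S (mulForm χ ω) :=
    hL (CompactlySupportedContinuousMap.continuousMapEquiv χ)
  rw [h2] at h1
  exact h1

theorem mass (h : S_TOP) : S_MASS := by
  intro E _ _ _ X ω S σ D c hσ hD hc
  obtain ⟨_, hcomp, hsc⟩ := h E X
  obtain ⟨hfin, hint⟩ := hσ
  rw [D.measure_eq_iInf_isOpen σ]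
  refine le_iInf fun U => le_iInf fun hDU => le_iInf fun hU => ?_
  obtain ⟨V, hV, hDV, hVU⟩ := normal_exists_closure_subset hD hU hDU
  have hdis : Disjoint Uᶜ (closure V) := by
    rw [Set.disjoint_left]
    intro x hx hx'
    exact hx (hVU hx')
  obtain ⟨χ, h0, h1, h2⟩ := exists_continuous_zero_one_of_isClosed hU.isClosed_compl
    (isClosed_closure (s := V)) hdis
  have h3 := hc V hV hDV χ (fun x => (h2 x).1) (fun x hx => (h1 (subset_closure hx)).ge)
  rw [← hint] at h3
  have h4 : ∫ x, χ x ∂σ ≤ σ.real U := by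
    have h5 : ∫ x, χ x ∂σ ≤ ∫ x, U.indicator (fun _ => (1 : ℝ)) x ∂σ := by
      refine integral_mono ?_ ?_ ?_
      · exact χ.continuous.integrable_of_hasCompactSupport (HasCompactSupport.of_compactSpace _)
      · exact (integrable_const 1).indicator hU.measurableSet
      · intro x
        by_cases hx : x ∈ U
        · show χ x ≤ U.indicator (fun _ => (1 : ℝ)) x
          rw [indicator_of_mem hx]
          exact (h2 x).2
        · show χ x ≤ U.indicator (fun _ => (1 : ℝ)) x
          rw [indicator_of_notMem hx]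
          exact (h0 hx).le
    rw [integral_indicator hU.measurableSet, setIntegral_const, smul_eq_mul, mul_one] at h5
    exact h5
  rw [ENNReal.ofReal_le_iff_le_toReal (measure_ne_top σ U)]
  exact h3.trans h4

end Pool.Agent.Q79.SM
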