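import Pool.Agent.Q79.SM.Bas

/-!
# Project SM of helper35: job SM-G (the descent step)
-/

set_option autoImplicit false

namespace Pool.Agent.Q79.SM

open Finset Function MvPolynomial
open Pool.Agent.Q35.MM (bx dg S_DB)
open Pool.Agent.Q35.SM

open Classical in
/-- the vectors at which the open condition fails, uniformly -/
theorem bads (hC : S_C) (K : Type) [Field K] [NumberField K] (ι : Type) [Fintype ι]
    [DecidableEq ι] (n : ι → ℕ) (r : ℕ) (hr : 1 ≤ r) (hn : ∀ i, r ≤ n i + 1)
    (G : Finset ι → Finset (Pol K n)) (hG : ∀ I, ∀ g ∈ G I, MH g) :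
    ∃ C : ℝ, 0 ≤ C ∧ ∀ (i : ι) (T : Finset (Finset ι)) (x : Vs K n),
      (∀ I ∈ T, Cut K r i (G (insert i I)) x) → ∀ ρ : ℕ, 1 ≤ ρ →
      (((bx K (n i + 1) ρ).filter fun y =>
        ∃ I ∈ T, ¬ Opn K (G (insert i I)) (update x i y)).card : ℝ) ≤
        C * (ρ : ℝ) ^ (dg K * (n i + 1 - r)) := by
  have h1 : ∀ (i : ι) (I : Finset ι), ∃ C : ℝ, 0 ≤ C ∧ ∀ x : Vs K n,
      Cut K r i (G (insert i I)) x → ∀ ρ : ℕ, 1 ≤ ρ →
      (((bx K (n i + 1) ρ).filter fun y => ¬ Opn K (G (insert i I)) (update x i y)).card : ℝ) ≤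
        C * (ρ : ℝ) ^ (dg K * (n i + 1 - r)) := by
    intro i I
    obtain ⟨C, hC0, hC1⟩ := hC K ι n r i (G (insert i I)) hr (hn i) (hG _)
    exact ⟨C, hC0, fun x hx ρ hρ => hC1 x hx ρ hρ⟩
  choose C hC0 hC1 using h1
  refine ⟨∑ i, ∑ I, C i I, sum_nonneg fun i _ => sum_nonneg fun I _ => hC0 i I, ?_⟩
  intro i T x hx ρ hρ
  have h3 : ((bx K (n i + 1) ρ).filter fun y =>
      ∃ I ∈ T, ¬ Opn K (G (insert i I)) (update x i y)) ⊆
      T.biUnion fun I => (bx K (n i + 1) ρ).filter fun y =>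
        ¬ Opn K (G (insert i I)) (update x i y) := by
    intro y hy
    rw [mem_filter] at hy
    obtain ⟨hy1, I, hI, hI2⟩ := hy
    rw [mem_biUnion]
    exact ⟨I, hI, mem_filter.2 ⟨hy1, hI2⟩⟩
  have h5 : (((bx K (n i + 1) ρ).filter fun y =>
      ∃ I ∈ T, ¬ Opn K (G (insert i I)) (update x i y)).card : ℝ) ≤
      ∑ I ∈ T, (((bx K (n i + 1) ρ).filter fun y =>
        ¬ Opn K (G (insert i I)) (update x i y)).card : ℝ) := by
    exact_mod_cast (card_le_card h3).trans card_biUnion_le
  refine h5.trans ?_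
  calc ∑ I ∈ T, (((bx K (n i + 1) ρ).filter fun y =>
        ¬ Opn K (G (insert i I)) (update x i y)).card : ℝ)
      ≤ ∑ I ∈ T, C i I * (ρ : ℝ) ^ (dg K * (n i + 1 - r)) :=
        sum_le_sum fun I hI => hC1 i I x (hx I hI) ρ hρ
    _ = (∑ I ∈ T, C i I) * (ρ : ℝ) ^ (dg K * (n i + 1 - r)) := by rw [sum_mul]
    _ ≤ _ := by
        refine mul_le_mul_of_nonneg_right ?_ (by positivity)
        refine (sum_le_univ_sum_of_nonneg fun I => hC0 i I).trans ?_
        exact single_le_sum (f := fun i => ∑ I, C i I)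
          (fun j _ => sum_nonneg fun I _ => hC0 j I) (mem_univ i)

theorem sg (hC : S_C) (hDB : S_DB) : S_G := by
  classical
  intro K _ _ ι _ _ n k c G hcard hk hn hT
  have hr1 : 1 ≤ k * Fintype.card ι := by nlinarith
  obtain ⟨C, hC0, hC1⟩ := bads hC K ι n (k * Fintype.card ι) hr1 hn G hT.hom
  set e : ι → ℝ := fun l => 3 ^ (dg K * (n l + 1)) * ((bx K (n l + 1) 1).card : ℝ) with he
  have he1 : ∀ l, 1 ≤ e l := by
    intro l
    have h1 : (1 : ℝ) ≤ 3 ^ (dg K * (n l + 1)) := one_le_pow₀ (by norm_num)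
    have h2 : (1 : ℝ) ≤ ((bx K (n l + 1) 1).card : ℝ) := by
      exact_mod_cast card_pos.mpr ⟨0, Pool.Agent.Q92.MM.zero_mem_bx _ _⟩
    exact one_le_mul_of_one_le_of_one_le h1 h2
  have hE1 : 1 ≤ ∏ l, e l := Pool.Agent.Q92.MM.one_le_prod_real _ e he1
  refine ⟨C * ∏ l, e l, mul_nonneg hC0 (by linarith), ?_⟩
  intro b i ρ hb hρ hρb
  set b' := update b i ρ with hb'
  have hb'i : b' i = ρ := update_self _ _ _
  have hb'n : ∀ l, l ≠ i → b' l = b l := fun l hl => update_of_ne hl _ _
  set A := FF c G b with hA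
  set S := A.image fun P => update P i 0 with hS
  have hAm : ∀ P ∈ A, (∀ l, P l ∈ bx K (n l + 1) (b l)) ∧ UU c G P := by
    intro P hP
    rw [hA] at hP
    unfold FF at hP
    rw [mem_filter, Fintype.mem_piFinset] at hP
    exact hP
  have hne : ∀ I : Finset ι, i ∉ I → I ≠ univ := by
    rintro I hI rfl
    exact hI (mem_univ i)
  -- step 1
  have step1 : (A.card : ℝ) ≤
      ∑ Q ∈ S, (((bx K (n i + 1) (b i)).filter (· ∈ VV c Q i)).card : ℝ) := by
    have h := Pool.Agent.Q92.MM.card_fib A S i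
      (fun Q => (bx K (n i + 1) (b i)).filter (· ∈ VV c Q i))
      (fun P hP => mem_image_of_mem _ hP) (fun P hP => by
        rw [mem_filter, VV_update, mem_VV]
        refine ⟨(hAm P hP).1 i, fun t => ?_⟩
        rw [update_eq_self]
        exact (hAm P hP).2.1 t)
    exact_mod_cast h
  -- step 2
  have step2 : ∀ Q ∈ S, (((bx K (n i + 1) (b i)).filter (· ∈ VV c Q i)).card : ℝ) ≤
      (3 * (b i : ℝ) / ρ) ^ (dg K * (n i + 1 - k)) *
        (((bx K (n i + 1) ρ).filter (· ∈ VV c Q i)).card : ℝ) := by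
    intro Q hQ
    rw [hS, mem_image] at hQ
    obtain ⟨P, hP, rfl⟩ := hQ
    refine hDB K _ _ _ ?_ _ _ hρ hρb
    rw [VV_update]
    have h1 := finrank_VV c P i ((hT.base i K P).1
      ((hAm P hP).2.2 _ (hne _ (notMem_erase i _))))
    omega
  -- the bad sets
  let T : Finset (Finset ι) := univ.filter fun I => i ∉ I ∧ I.card + 2 ≤ Fintype.card ι
  let Bd : Vs K n → Finset (Fin (n i + 1) → K) := fun Q => (bx K (n i + 1) ρ).filter fun y =>
    ∃ I ∈ T, ¬ Opn K (G (insert i I)) (update Q i y)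
  let Gd : Vs K n → Finset (Fin (n i + 1) → K) := fun Q => (bx K (n i + 1) ρ).filter fun y =>
    UU c G (update Q i y)
  have step3 : ∀ Q ∈ S, (bx K (n i + 1) ρ).filter (· ∈ VV c Q i) ⊆ Gd Q ∪ Bd Q := by
    intro Q hQ y hy
    rw [hS, mem_image] at hQ
    obtain ⟨P, hP, rfl⟩ := hQ
    rw [mem_filter, mem_VV] at hy
    obtain ⟨hy1, hy2⟩ := hy
    rw [mem_union]
    by_cases hU : UU c G (update (update P i 0) i y)
    · left
      exact mem_filter.2 ⟨hy1, hU⟩
    · right
      refine mem_filter.2 ⟨hy1, ?_⟩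
      unfold UU at hU
      push Not at hU
      obtain ⟨J, hJ1, hJ2⟩ := hU hy2
      have hiJ : i ∈ J := by
        by_contra hiJ
        apply hJ2
        rw [opn_update (hT.dep J) hiJ, opn_update (hT.dep J) hiJ]
        exact (hAm P hP).2.2 J hJ1
      refine ⟨J.erase i, mem_filter.2 ⟨mem_univ _, notMem_erase _ _, ?_⟩, ?_⟩
      · rw [card_erase_of_mem hiJ]
        have h1 : J.card < Fintype.card ι := by
          rw [← card_univ]
          exact card_lt_card (ssubset_univ_iff.2 hJ1)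
        have h2 : 0 < J.card := card_pos.2 ⟨i, hiJ⟩
        omega
      · rw [insert_erase hiJ]
        exact hJ2
  have step4 : ∀ Q ∈ S, ((Bd Q).card : ℝ) ≤
      C * (ρ : ℝ) ^ (dg K * (n i + 1 - k * Fintype.card ι)) := by
    intro Q hQ
    rw [hS, mem_image] at hQ
    obtain ⟨P, hP, rfl⟩ := hQ
    have h1 := hC1 i T P (fun I hI => by
      obtain ⟨-, hI1, hI2⟩ := mem_filter.1 hI
      exact (hT.step I hI2 K P).1 ((hAm P hP).2.2 I (hne I hI1)) i hI1) ρ hρ
    have h2 : Bd (update P i 0) = (bx K (n i + 1) ρ).filter fun y =>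
        ∃ I ∈ T, ¬ Opn K (G (insert i I)) (update P i y) := by
      refine filter_congr fun y _ => ?_
      rw [update_idem]
    rw [h2]
    exact h1
  have step5 : ∑ Q ∈ S, (Gd Q).card ≤ (FF c G b').card := by
    rw [← card_sigma]
    refine card_le_card_of_injOn (fun x => update x.1 i x.2) ?_ ?_
    · rintro ⟨Q, z⟩ hx
      rw [mem_coe, mem_sigma] at hx
      obtain ⟨hQ, hz⟩ := hx
      simp only at hQ hz
      obtain ⟨hz1, hz2⟩ := mem_filter.1 hz
      rw [hS, mem_image] at hQ
      obtain ⟨P, hP, rfl⟩ := hQ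
      obtain ⟨hP1, hP2⟩ := hAm P hP
      rw [mem_coe]
      unfold FF
      rw [mem_filter, Fintype.mem_piFinset]
      refine ⟨fun l => ?_, hz2⟩
      by_cases hl : l = i
      · subst hl
        simp only
        rw [update_self, hb'i]
        exact hz1
      · simp only
        rw [update_of_ne hl, update_of_ne hl, hb'n l hl]
        exact hP1 l
    · rintro ⟨Q, z⟩ hx ⟨Q', z'⟩ hx' h
      rw [mem_coe, mem_sigma] at hx hx'
      have hQ0 : ∀ R ∈ S, update R i 0 = R := by
        intro R hR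
        rw [hS, mem_image] at hR
        obtain ⟨P, hP, rfl⟩ := hR
        exact update_idem _ _ _
      simp only at h hx hx'
      have e1 : Q = Q' := by
        have := congrArg (fun R => update R i 0) h
        simp only [update_idem] at this
        rw [hQ0 Q hx.1, hQ0 Q' hx'.1] at this
        exact this
      have e2 : z = z' := by
        have := congrFun h i
        rw [update_self, update_self] at this
        exact this
      rw [e1, e2]
  -- the number of fibres
  have step6 : (S.card : ℝ) ≤ (∏ l, e l) * ∏ l ∈ univ.erase i, (b l : ℝ) ^ (dg K * (n l + 1)) := by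
    have hsub : S ⊆ Fintype.piFinset fun l => if l = i then {0} else bx K (n l + 1) (b l) := by
      intro Q hQ
      rw [hS, mem_image] at hQ
      obtain ⟨P, hP, rfl⟩ := hQ
      rw [Fintype.mem_piFinset]
      intro l
      by_cases hl : l = i
      · subst hl
        rw [if_pos rfl, update_self]
        exact mem_singleton_self _
      · rw [if_neg hl, update_of_ne hl]
        exact (hAm P hP).1 l
    have h0 : (S.card : ℝ) ≤ ((Fintype.piFinset fun l =>
        if l = i then ({0} : Finset (Fin (n l + 1) → K)) else bx K (n l + 1) (b l)).card : ℝ) := by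
      exact_mod_cast card_le_card hsub
    refine h0.trans ?_
    rw [Fintype.card_piFinset, Nat.cast_prod, ← mul_prod_erase univ _ (mem_univ i), if_pos rfl,
      card_singleton, Nat.cast_one, one_mul]
    have h1 : ∀ l ∈ univ.erase i, (((if l = i then ({0} : Finset (Fin (n l + 1) → K)) else
        bx K (n l + 1) (b l)).card : ℕ) : ℝ) ≤ e l * (b l : ℝ) ^ (dg K * (n l + 1)) := by
      intro l hl
      rw [if_neg (ne_of_mem_erase hl)]
      have h2 := Pool.Agent.Q92.MM.box_le hDB (⊤ : Submodule K (Fin (n l + 1) → K)) (r := n l + 1)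
        (by rw [finrank_top, Module.finrank_fin_fun]) le_rfl (hb l)
      rw [filter_true_of_mem (fun _ _ => Submodule.mem_top)] at h2
      exact h2
    calc _ ≤ ∏ l ∈ univ.erase i, e l * (b l : ℝ) ^ (dg K * (n l + 1)) :=
          prod_le_prod (fun _ _ => by positivity) h1
      _ = (∏ l ∈ univ.erase i, e l) * ∏ l ∈ univ.erase i, (b l : ℝ) ^ (dg K * (n l + 1)) :=
          prod_mul_distrib
      _ ≤ _ := mul_le_mul_of_nonneg_right (Pool.Agent.Q92.MM.prod_le_univ _ e he1)
          (prod_nonneg fun _ _ => by positivity)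
  have hpos : (0 : ℝ) ≤ (3 * (b i : ℝ) / ρ) ^ (dg K * (n i + 1 - k)) := by positivity
  have hpos2 : (0 : ℝ) ≤ C * (ρ : ℝ) ^ (dg K * (n i + 1 - k * Fintype.card ι)) :=
    mul_nonneg hC0 (by positivity)
  calc (A.card : ℝ) ≤ ∑ Q ∈ S, (3 * (b i : ℝ) / ρ) ^ (dg K * (n i + 1 - k)) *
        (((bx K (n i + 1) ρ).filter (· ∈ VV c Q i)).card : ℝ) := step1.trans (sum_le_sum step2)
    _ = (3 * (b i : ℝ) / ρ) ^ (dg K * (n i + 1 - k)) *
        ∑ Q ∈ S, (((bx K (n i + 1) ρ).filter (· ∈ VV c Q i)).card : ℝ) := by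
        rw [← mul_sum]
    _ ≤ _ := by
        refine mul_le_mul_of_nonneg_left ?_ hpos
        calc ∑ Q ∈ S, (((bx K (n i + 1) ρ).filter (· ∈ VV c Q i)).card : ℝ)
            ≤ ∑ Q ∈ S, (((Gd Q).card : ℝ) +
                C * (ρ : ℝ) ^ (dg K * (n i + 1 - k * Fintype.card ι))) := by
              refine sum_le_sum fun Q hQ => ?_
              have h1 := (card_le_card (step3 Q hQ)).trans (card_union_le _ _)
              have h2 : (((bx K (n i + 1) ρ).filter (· ∈ VV c Q i)).card : ℝ) ≤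
                (Gd Q).card + (Bd Q).card := by exact_mod_cast h1
              linarith [step4 Q hQ]
          _ = ((∑ Q ∈ S, (Gd Q).card : ℕ) : ℝ) +
              S.card * (C * (ρ : ℝ) ^ (dg K * (n i + 1 - k * Fintype.card ι))) := by
              rw [sum_add_distrib, sum_const, nsmul_eq_mul, Nat.cast_sum]
          _ ≤ ((FF c G b').card : ℝ) +
              ((∏ l, e l) * ∏ l ∈ univ.erase i, (b l : ℝ) ^ (dg K * (n l + 1))) *
              (C * (ρ : ℝ) ^ (dg K * (n i + 1 - k * Fintype.card ι))) := by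
              refine add_le_add (by exact_mod_cast step5) ?_
              exact mul_le_mul_of_nonneg_right step6 hpos2
          _ = _ := by ring

end Pool.Agent.Q79.SM
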