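import Pool.Agent.Q72.SM.Stm

/-!
# Project SM of helper72 (MP_0aacdf_an): jobs P1, P2 (frames and charts of the projectivization)
-/

set_option autoImplicit false

namespace Pool.Agent.Q79.SM

open Set Filter Topology
open Pool.Agent.Q72.SM

variable {E : Type} [NormedAddCommGroup E] [NormedSpace ℂ E] (X : Dir E)

theorem indep' (i : X.ι) (a : Bool) (u : E) (α β : ℂ)
    (h : α • X.e i a u + β • X.e i (!a) u = 0) : α = 0 ∧ β = 0 := by
  cases a
  · exact X.indep i u α β h
  · have h1 : X.e i (!true) u = X.e i false u := rfl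
    rw [h1, add_comm] at h
    exact (X.indep i u β α h).symm

theorem p1a (i j : X.ι) (a : Bool) (w : E × ℂ) (hw : w.1 ∈ X.dom i j) :
    fderiv ℂ (X.tr i j) w.1 (X.vec i a w) = X.cf i j a false w • X.e j false (X.tr i j w.1) +
      X.cf i j a true w • X.e j true (X.tr i j w.1) := by
  have h0 := X.frame i j w.1 hw a
  have h1 := X.frame i j w.1 hw (!a)
  unfold Dir.vec Dir.cf
  rw [map_add, map_smul, h0, h1]
  module

theorem vec_an (i : X.ι) (a : Bool) (w : E × ℂ) : AnalyticAt ℂ (X.vec i a) w := by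
  have h1 : AnalyticAt ℂ (fun z : E × ℂ => X.e i a z.1) w :=
    (X.e_analytic i a w.1 trivial).fun_comp analyticAt_fst
  have h2 : AnalyticAt ℂ (fun z : E × ℂ => X.e i (!a) z.1) w :=
    (X.e_analytic i (!a) w.1 trivial).fun_comp analyticAt_fst
  exact h1.add (analyticAt_snd.smul h2)

theorem p1 : S_P1 := by
  intro E _ _ X
  refine ⟨fun i j a w hw => p1a X i j a w hw, fun k c => ?_, fun k w α β h => ?_⟩
  · cases c
    · have e : X.pe k false = fun w => (X.vec k.1 k.2 w, (0 : ℂ)) := rfl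
      rw [e]
      intro w _
      exact (vec_an X k.1 k.2 w).prod analyticAt_const
    · have e : X.pe k true = fun _ => ((0 : E), (1 : ℂ)) := rfl
      rw [e]
      intro w _
      exact analyticAt_const
  · have e0 : X.pe k false w = (X.vec k.1 k.2 w, (0 : ℂ)) := rfl
    have e1 : X.pe k true w = ((0 : E), (1 : ℂ)) := rfl
    rw [e0, e1] at h
    have h1 := congrArg Prod.fst h
    have h2 := congrArg Prod.snd h
    simp only [Prod.smul_mk, Prod.mk_add_mk, smul_zero, add_zero, zero_add, smul_eq_mul, mul_one,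
      mul_zero, Prod.fst_zero, Prod.snd_zero] at h1 h2
    refine ⟨?_, h2⟩
    rcases smul_eq_zero.1 h1 with h3 | h3
    · exact h3
    · exact absurd h3 (X.vec_ne_zero k.1 k.2 w)

/-- every vector of `V` in the chart `i` -/
theorem V_exists (i : X.ι) (u : E) {v : E} (hv : v ∈ X.V (X.φ i u)) :
    ∃ α β : ℂ, v = X.push i u (α • X.e i false u + β • X.e i true u) := by
  have hle : X.V (X.φ i u) ≤ Submodule.map (X.push i u : E →ₗ[ℂ] E)
      (Submodule.span ℂ (range fun a => X.e i a u)) := by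
    unfold Dir.V
    rw [Submodule.span_le]
    rintro _ ⟨a, rfl⟩
    have hc : X.tr i (X.ch (X.φ i u)) u = X.co (X.φ i u) := rfl
    have hd : u ∈ X.dom i (X.ch (X.φ i u)) := X.mem_dom_ch i u
    have hm := X.tr_mem i (X.ch (X.φ i u)) hd
    rw [hc] at hm
    have ht : X.tr (X.ch (X.φ i u)) i (X.co (X.φ i u)) = u := by
      rw [← hc, X.tr_tr i _ i hd, X.tr_self]
    have hf := X.frame (X.ch (X.φ i u)) i (X.co (X.φ i u)) hm a
    rw [ht] at hf
    refine ⟨X.A (X.ch (X.φ i u)) i a false (X.co (X.φ i u)) • X.e i false u +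
      X.A (X.ch (X.φ i u)) i a true (X.co (X.φ i u)) • X.e i true u, ?_, ?_⟩
    · exact Submodule.add_mem _ (Submodule.smul_mem _ _ (Submodule.subset_span ⟨false, rfl⟩))
        (Submodule.smul_mem _ _ (Submodule.subset_span ⟨true, rfl⟩))
    · rw [← hf]
      show fderiv ℂ (X.tr i (X.ch (X.φ i u))) u _ = _
      have h3 := X.fderiv_tr (X.ch (X.φ i u)) i (X.ch (X.φ i u)) hm
        (X.mem_dom (u := X.co (X.φ i u)) (v := X.co (X.φ i u)) rfl)
        (X.e (X.ch (X.φ i u)) a (X.co (X.φ i u)))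
      rw [ht, X.fderiv_tr_self] at h3
      exact h3
  obtain ⟨y, hy, hyv⟩ := hle hv
  obtain ⟨c, hc⟩ := (Submodule.mem_span_range_iff_exists_fun ℂ).1 hy
  rw [Fintype.sum_bool] at hc
  refine ⟨c false, c true, ?_⟩
  rw [← hyv, ← hc, add_comm]
  rfl

theorem span_eq_smul {x y : E} (h : Submodule.span ℂ {x} = Submodule.span ℂ {y}) :
    ∃ c : ℂ, c • y = x := by
  have : x ∈ Submodule.span ℂ {y} := by
    rw [← h]
    exact Submodule.mem_span_singleton_self x
  exact Submodule.mem_span_singleton.1 this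

theorem pφ_inj (k : X.ι × Bool) : Function.Injective (X.pφ k) := by
  intro w w' h
  obtain ⟨h1, h2⟩ := Prod.ext_iff.1 (Subtype.ext_iff.1 h)
  have h1' : X.φ k.1 w.1 = X.φ k.1 w'.1 := h1
  have h2' : Submodule.span ℂ {X.push k.1 w.1 (X.vec k.1 k.2 w)} =
    Submodule.span ℂ {X.push k.1 w'.1 (X.vec k.1 k.2 w')} := h2
  have h3 : w.1 = w'.1 := X.inj k.1 h1'
  rw [← h3] at h2'
  obtain ⟨c, hc⟩ := span_eq_smul h2'
  rw [← map_smul] at hc
  have h4 := X.push_inj k.1 w.1 hc
  unfold Dir.vec at h4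
  rw [← h3] at h4
  have h5 : (c - 1) • X.e k.1 k.2 w.1 + (c * w'.2 - w.2) • X.e k.1 (!k.2) w.1 = 0 := by
    have h6 := sub_eq_zero.2 h4
    rw [← h6]
    module
  obtain ⟨h6, h7⟩ := indep' X k.1 k.2 w.1 _ _ h5
  have h8 : c = 1 := sub_eq_zero.1 h6
  rw [h8, one_mul] at h7
  exact Prod.ext h3 (sub_eq_zero.1 h7).symm

/-- a line in `V` in the chart `i` -/
theorem line_exists (i : X.ι) (u : E) (p : X.PPt) (hp : X.φ i u = p.1.1) :
    ∃ (a : Bool) (κ : ℂ), ‖κ‖ ≤ 1 ∧ X.pφ (i, a) (u, κ) = p := by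
  obtain ⟨⟨x, ℓ⟩, hle, hfin⟩ := p
  have hp' : X.φ i u = x := hp
  subst hp'
  have hle' : ℓ ≤ X.V (X.φ i u) := hle
  have hfin' : Module.finrank ℂ ℓ = 1 := hfin
  obtain ⟨v, hv0, hv⟩ := finrank_eq_one_iff'.1 hfin'
  have hℓ : ℓ = Submodule.span ℂ {(v : E)} := by
    apply le_antisymm
    · intro y hy
      obtain ⟨c, hc⟩ := hv ⟨y, hy⟩
      rw [Submodule.mem_span_singleton]
      exact ⟨c, congrArg Subtype.val hc⟩
    · rw [Submodule.span_singleton_le_iff_mem]
      exact v.2
  obtain ⟨α, β, hαβ⟩ := V_exists X i u (hle' v.2)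
  have hv0' : (v : E) ≠ 0 := fun h => hv0 (Subtype.ext h)
  rcases le_total ‖β‖ ‖α‖ with h | h
  · have hα : α ≠ 0 := by
      rintro rfl
      rw [norm_zero] at h
      have hβ := norm_le_zero_iff.1 h
      apply hv0'
      rw [hαβ, hβ, zero_smul, zero_smul, add_zero, map_zero]
    refine ⟨false, β / α, ?_, ?_⟩
    · rw [norm_div]
      exact div_le_one_of_le₀ h (norm_nonneg _)
    · apply Subtype.ext
      refine Prod.ext rfl ?_
      show Submodule.span ℂ {X.push i u (X.vec i false (u, β / α))} = ℓ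
      rw [hℓ, hαβ]
      have e : α • X.e i false u + β • X.e i true u = α • X.vec i false (u, β / α) := by
        show _ = α • (X.e i false u + (β / α) • X.e i true u)
        rw [smul_add, smul_smul, mul_div_cancel₀ _ hα]
      rw [e, map_smul, Submodule.span_singleton_smul_eq (IsUnit.mk0 α hα)]
  · have hβ : β ≠ 0 := by
      rintro rfl
      rw [norm_zero] at h
      have hα := norm_le_zero_iff.1 h
      apply hv0'
      rw [hαβ, hα, zero_smul, zero_smul, add_zero, map_zero]
    refine ⟨true, α / β, ?_, ?_⟩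
    · rw [norm_div]
      exact div_le_one_of_le₀ h (norm_nonneg _)
    · apply Subtype.ext
      refine Prod.ext rfl ?_
      show Submodule.span ℂ {X.push i u (X.vec i true (u, α / β))} = ℓ
      rw [hℓ, hαβ]
      have e : α • X.e i false u + β • X.e i true u = β • X.vec i true (u, α / β) := by
        show _ = β • (X.e i true u + (α / β) • X.e i false u)
        rw [smul_add, smul_smul, mul_div_cancel₀ _ hβ, add_comm]
      rw [e, map_smul, Submodule.span_singleton_smul_eq (IsUnit.mk0 β hβ)]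

theorem p2 : S_P2 := by
  intro E _ _ X
  refine ⟨fun k => pφ_inj X k, fun p => ?_⟩
  obtain ⟨i, u, hu, hx⟩ := X.cover p.1.1
  obtain ⟨a, κ, hκ, h⟩ := line_exists X i u p hx
  exact ⟨(i, a), (u, κ), max_le hu hκ, h⟩

end Pool.Agent.Q79.SM
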