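import Pool.Agent.Q79.SM.P34

/-!
# Project SM of helper72 (MP_0aacdf_an): jobs P5, P6 (the projectivization is Hausdorff; its frames)
-/

set_option autoImplicit false

namespace Pool.Agent.Q79.SM

open Set Filter Topology
open Pool.Agent.Q72.SM

variable {E : Type} [NormedAddCommGroup E] [NormedSpace ℂ E] (X : Dir E)

theorem flip (i : X.ι) (a : Bool) (u : E) {κ : ℂ} (hκ : κ ≠ 0) :
    X.pφ (i, a) (u, κ) = X.pφ (i, !a) (u, κ⁻¹) := by
  apply Subtype.ext
  refine Prod.ext rfl ?_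
  show Submodule.span ℂ {X.push i u (X.vec i a (u, κ))} =
    Submodule.span ℂ {X.push i u (X.vec i (!a) (u, κ⁻¹))}
  have e : X.vec i a (u, κ) = κ • X.vec i (!a) (u, κ⁻¹) := by
    show X.e i a u + κ • X.e i (!a) u = κ • (X.e i (!a) u + κ⁻¹ • X.e i (!!a) u)
    rw [smul_add, smul_smul, mul_inv_cancel₀ hκ, one_smul, Bool.not_not, add_comm]
  rw [e, map_smul, Submodule.span_singleton_smul_eq (IsUnit.mk0 κ hκ)]

theorem not_flip (i : X.ι) {w w' : E × ℂ} (hw : ‖w.2‖ < 1) (hw' : ‖w'.2‖ < 1) :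
    X.pφ (i, false) w ≠ X.pφ (i, true) w' := by
  intro h
  obtain ⟨h1, h2⟩ := Prod.ext_iff.1 (Subtype.ext_iff.1 h)
  have h1' : X.φ i w.1 = X.φ i w'.1 := h1
  have h2' : Submodule.span ℂ {X.push i w.1 (X.vec i false w)} =
    Submodule.span ℂ {X.push i w'.1 (X.vec i true w')} := h2
  have h3 : w.1 = w'.1 := X.inj i h1'
  rw [← h3] at h2'
  obtain ⟨c, hc⟩ := span_eq_smul h2'
  rw [← map_smul] at hc
  have h4 := X.push_inj i w.1 hc
  have h4' : c • (X.e i true w.1 + w'.2 • X.e i false w.1) =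
      X.e i false w.1 + w.2 • X.e i true w.1 := by
    have h5 : X.vec i true w' = X.e i true w.1 + w'.2 • X.e i false w.1 := by
      rw [h3]
      rfl
    rw [← h5]
    exact h4
  have h5 : (c * w'.2 - 1) • X.e i false w.1 + (c - w.2) • X.e i true w.1 = 0 := by
    rw [← sub_eq_zero.2 h4']
    module
  obtain ⟨h6, h7⟩ := X.indep i w.1 _ _ h5
  have h8 : c = w.2 := sub_eq_zero.1 h7
  have h9 : w.2 * w'.2 = 1 := by rw [← h8]; exact sub_eq_zero.1 h6
  have h10 := congrArg norm h9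
  rw [norm_mul, norm_one] at h10
  nlinarith [norm_nonneg w.2, norm_nonneg w'.2]

/-- the topology of the projectivization -/
noncomputable def top : TopologicalSpace X.PPt :=
  ⨆ k, TopologicalSpace.coinduced (X.pφ k) inferInstance

theorem isOpen_iff' (U : Set X.PPt) :
    IsOpen[top X] U ↔ ∀ k, IsOpen (X.pφ k ⁻¹' U) := by
  unfold top
  rw [isOpen_iSup_iff]
  exact forall_congr' fun k => isOpen_coinduced

theorem image_open (k : X.ι × Bool) {U : Set (E × ℂ)} (hU : IsOpen U) :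
    IsOpen[top X] (X.pφ k '' U) := by
  rw [isOpen_iff']
  intro l
  have e : X.pφ l ⁻¹' (X.pφ k '' U) = X.pdom l k ∩ X.ptr l k ⁻¹' U := by
    ext z
    constructor
    · rintro ⟨u, hu, huz⟩
      have hz := p3b X l k z u huz
      refine ⟨hz, ?_⟩
      have h1 := p3a X l k z hz
      rw [← huz] at h1
      have h2 := pφ_inj X k h1
      show X.ptr l k z ∈ U
      rw [h2]
      exact hu
    · rintro ⟨hz, hu⟩
      exact ⟨X.ptr l k z, hu, p3a X l k z hz⟩
  rw [e]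
  have h2 : ContinuousOn (X.ptr l k) (X.pdom l k) :=
    fun w hw => (ptr_an X l k w hw).continuousAt.continuousWithinAt
  exact h2.isOpen_inter_preimage (pdom_open X l k) hU

theorem proj_open {O : Set X.Pt} (hO : IsOpen O) :
    IsOpen[top X] {p : X.PPt | p.1.1 ∈ O} := by
  rw [isOpen_iff']
  intro k
  have h1 : IsOpen (X.φ k.1 ⁻¹' O) := by
    have h2 : IsOpen[⨆ i, TopologicalSpace.coinduced (X.φ i) inferInstance] O := hO
    rw [isOpen_iSup_iff] at h2
    exact isOpen_coinduced.1 (h2 k.1)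
  exact h1.preimage continuous_fst

theorem sep_chart (k : X.ι × Bool) {w w' : E × ℂ} (h : w ≠ w') :
    ∃ U V : Set X.PPt, IsOpen[top X] U ∧ IsOpen[top X] V ∧ X.pφ k w ∈ U ∧ X.pφ k w' ∈ V ∧
      Disjoint U V := by
  obtain ⟨U, V, hU, hV, hw, hw', hd⟩ := t2_separation h
  exact ⟨X.pφ k '' U, X.pφ k '' V, image_open X k hU, image_open X k hV, ⟨w, hw, rfl⟩,
    ⟨w', hw', rfl⟩, (Set.disjoint_image_iff (pφ_inj X k)).2 hd⟩

theorem sep_ft (i : X.ι) (u : E) (κ κ' : ℂ) (h : X.pφ (i, false) (u, κ) ≠ X.pφ (i, true) (u, κ')) :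
    ∃ U V : Set X.PPt, IsOpen[top X] U ∧ IsOpen[top X] V ∧ X.pφ (i, false) (u, κ) ∈ U ∧
      X.pφ (i, true) (u, κ') ∈ V ∧ Disjoint U V := by
  by_cases h1 : κ = 0
  · by_cases h2 : κ' = 0
    · have hU : IsOpen {w : E × ℂ | ‖w.2‖ < 1} :=
        isOpen_lt (continuous_norm.comp continuous_snd) continuous_const
      refine ⟨X.pφ (i, false) '' {w | ‖w.2‖ < 1}, X.pφ (i, true) '' {w | ‖w.2‖ < 1},
        image_open X _ hU, image_open X _ hU, ⟨(u, κ), ?_, rfl⟩, ⟨(u, κ'), ?_, rfl⟩, ?_⟩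
      · rw [h1]
        show ‖(0 : ℂ)‖ < 1
        rw [norm_zero]
        exact one_pos
      · rw [h2]
        show ‖(0 : ℂ)‖ < 1
        rw [norm_zero]
        exact one_pos
      · rw [Set.disjoint_left]
        rintro _ ⟨w, hw, rfl⟩ ⟨w', hw', hww⟩
        exact not_flip X i hw hw' hww.symm
    · have h3 : X.pφ (i, true) (u, κ') = X.pφ (i, false) (u, κ'⁻¹) := flip X i true u h2
      rw [h3] at h ⊢
      exact sep_chart X (i, false) fun h4 => h (by rw [h4])
  · have h3 : X.pφ (i, false) (u, κ) = X.pφ (i, true) (u, κ⁻¹) := flip X i false u h1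
    rw [h3] at h ⊢
    exact sep_chart X (i, true) fun h4 => h (by rw [h4])

theorem sep (p q : X.PPt) (h : p ≠ q) :
    ∃ U V : Set X.PPt, IsOpen[top X] U ∧ IsOpen[top X] V ∧ p ∈ U ∧ q ∈ V ∧ Disjoint U V := by
  by_cases h1 : p.1.1 = q.1.1
  · obtain ⟨i, u, _, hx⟩ := X.cover p.1.1
    obtain ⟨a, κ, _, hp⟩ := line_exists X i u p hx
    obtain ⟨a', κ', _, hq⟩ := line_exists X i u q (hx.trans h1)
    subst hp
    subst hq
    cases a
    · cases a'
      · exact sep_chart X (i, false) fun h4 => h (by rw [h4])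
      · exact sep_ft X i u κ κ' h
    · cases a'
      · obtain ⟨U, V, hU, hV, h2, h3, hd⟩ := sep_ft X i u κ' κ h.symm
        exact ⟨V, U, hV, hU, h3, h2, hd.symm⟩
      · exact sep_chart X (i, true) fun h4 => h (by rw [h4])
  · obtain ⟨U, V, hU, hV, hw, hw', hd⟩ := t2_separation h1
    refine ⟨_, _, proj_open X hU, proj_open X hV, hw, hw', ?_⟩
    rw [Set.disjoint_left] at hd ⊢
    intro z hz hz'
    exact hd hz hz'

theorem p5 (_ : S_P2) (_ : S_P3) (_ : S_P4) : S_P5 := by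
  intro E _ _ X
  refine @T2Space.mk _ (⨆ k, TopologicalSpace.coinduced (X.pφ k) inferInstance) ?_
  intro p q h
  exact sep X p q h

theorem pA_an (k l : X.ι × Bool) (c d : Bool) (w : E × ℂ) (hw : w ∈ X.pdom k l) :
    AnalyticAt ℂ (X.pA k l c d) w := by
  cases d
  · cases c
    · exact cf_an X _ _ _ _ w hw.1
    · have e : X.pA k l true false = fun _ => (0 : ℂ) := rfl
      rw [e]
      exact analyticAt_const
  · have e : X.pA k l c true = fun w => fderiv ℂ (fun z => (X.ptr k l z).2) w (X.pe k c w) := rfl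
    rw [e]
    have h1 : AnalyticAt ℂ (fun z => (X.ptr k l z).2) w :=
      (cf_an X _ _ _ _ w hw.1).div (cf_an X _ _ _ _ w hw.1) hw.2
    have h2 : AnalyticAt ℂ (X.pe k c) w := (p1 E X).2.1 k c w trivial
    exact ((ContinuousLinearMap.id ℂ ((E × ℂ) →L[ℂ] ℂ)).analyticAt_bilinear
      (fderiv ℂ (fun z => (X.ptr k l z).2) w, X.pe k c w)).comp₂ h1.fderiv h2

theorem p6 (_ : S_P1) (_ : S_P4) : S_P6 := by
  intro E _ _ X
  refine ⟨fun k l c d w hw => pA_an X k l c d w hw, fun k l w hw c => ?_⟩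
  have d1 : DifferentiableAt ℂ (fun z : E × ℂ => (X.ptr k l z).1) w := by
    have h1 : AnalyticAt ℂ (fun z : E × ℂ => X.tr k.1 l.1 z.1) w :=
      (X.tr_analytic k.1 l.1 w.1 hw.1).fun_comp analyticAt_fst
    exact h1.differentiableAt
  have d2 : DifferentiableAt ℂ (fun z : E × ℂ => (X.ptr k l z).2) w := by
    have h1 : AnalyticAt ℂ (fun z => (X.ptr k l z).2) w :=
      (cf_an X _ _ _ _ w hw.1).div (cf_an X _ _ _ _ w hw.1) hw.2
    exact h1.differentiableAt
  have hf : ∀ v : E × ℂ, fderiv ℂ (X.ptr k l) w v =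
      (fderiv ℂ (X.tr k.1 l.1) w.1 v.1, fderiv ℂ (fun z => (X.ptr k l z).2) w v) := by
    intro v
    have h1 := d1.fderiv_prodMk d2
    have h2 : (fun z => ((X.ptr k l z).1, (X.ptr k l z).2)) = X.ptr k l := rfl
    rw [h2] at h1
    rw [h1]
    refine Prod.ext ?_ rfl
    show fderiv ℂ (fun z : E × ℂ => X.tr k.1 l.1 z.1) w v = _
    have h3 : HasFDerivAt (X.tr k.1 l.1) (fderiv ℂ (X.tr k.1 l.1) w.1) w.1 :=
      (X.tr_analytic k.1 l.1 w.1 hw.1).differentiableAt.hasFDerivAt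
    have h4 : HasFDerivAt (fun z : E × ℂ => X.tr k.1 l.1 z.1)
        ((fderiv ℂ (X.tr k.1 l.1) w.1).comp (ContinuousLinearMap.fst ℂ E ℂ)) w :=
      h3.comp w hasFDerivAt_fst
    rw [h4.fderiv]
    rfl
  rw [hf]
  cases c
  · have e0 : X.pe k false w = (X.vec k.1 k.2 w, (0 : ℂ)) := rfl
    have e1 : X.pe l false (X.ptr k l w) = (X.vec l.1 l.2 (X.ptr k l w), (0 : ℂ)) := rfl
    have e2 : X.pe l true (X.ptr k l w) = ((0 : E), (1 : ℂ)) := rfl
    have e3 : X.pA k l false false w = X.cf k.1 l.1 k.2 l.2 w := rfl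
    have e4 : X.pA k l false true w =
        fderiv ℂ (fun z => (X.ptr k l z).2) w (X.pe k false w) := rfl
    rw [e1, e2, e3, e4, e0]
    refine Prod.ext ?_ ?_
    · show fderiv ℂ (X.tr k.1 l.1) w.1 (X.vec k.1 k.2 w) =
        X.cf k.1 l.1 k.2 l.2 w • X.vec l.1 l.2 (X.ptr k l w) + _ • (0 : E)
      rw [smul_zero, add_zero, key X k l w hw]
    · show fderiv ℂ (fun z => (X.ptr k l z).2) w (X.vec k.1 k.2 w, (0 : ℂ)) =
        X.cf k.1 l.1 k.2 l.2 w • (0 : ℂ) +
          fderiv ℂ (fun z => (X.ptr k l z).2) w (X.vec k.1 k.2 w, (0 : ℂ)) • (1 : ℂ)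
      rw [smul_zero, zero_add, smul_eq_mul, mul_one]
  · have e0 : X.pe k true w = ((0 : E), (1 : ℂ)) := rfl
    have e2 : X.pe l true (X.ptr k l w) = ((0 : E), (1 : ℂ)) := rfl
    have e3 : X.pA k l true false w = 0 := rfl
    have e4 : X.pA k l true true w =
        fderiv ℂ (fun z => (X.ptr k l z).2) w (X.pe k true w) := rfl
    rw [e2, e3, e4, e0, zero_smul, zero_add]
    refine Prod.ext ?_ ?_
    · show fderiv ℂ (X.tr k.1 l.1) w.1 (0 : E) = _ • (0 : E)
      rw [map_zero, smul_zero]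
    · show fderiv ℂ (fun z => (X.ptr k l z).2) w ((0 : E), (1 : ℂ)) =
          fderiv ℂ (fun z => (X.ptr k l z).2) w ((0 : E), (1 : ℂ)) • (1 : ℂ)
      rw [smul_eq_mul, mul_one]

end Pool.Agent.Q79.SM
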